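import Pool.Agent.H910R3.Geo.Recover
import Pool.Agent.NPC.Dec

/-!
# Adjacency matrices, and the matrix of the geodetic graph of a graph
-/

set_option autoImplicit false

namespace Pool.Agent.H910R3.Geo

open SimpleGraph

/-- Matrices of bits. -/
abbrev Mat : Type := List (List Bool)

/-- The entry of a matrix. -/
def ent (M : Mat) (i j : ℕ) : Bool := (M.getD i []).getD j false

/-- The graph with a given adjacency matrix. -/
def gr (M : Mat) : SimpleGraph (Fin M.length) where
  Adj i j := i ≠ j ∧ ent M i j = true ∧ ent M j i = true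
  symm := ⟨fun _ _ h => ⟨h.1.symm, h.2.2, h.2.1⟩⟩
  loopless := ⟨fun _ h => h.1 rfl⟩

/-- A matrix is an adjacency matrix if it is square and symmetric with zero diagonal. -/
def IsAdjMat (M : Mat) : Prop :=
  (∀ r ∈ M, r.length = M.length) ∧
    ∀ i < M.length, ent M i i = false ∧ ∀ j < M.length, ent M i j = ent M j i

/-! ### Matrices of lists of vertices -/

section MatOf

variable {X : Type}

/-- The adjacency matrix of a graph on the elements of a list. -/
def matOf (l : List X) (a : X → X → Bool) : Mat := l.map fun x => l.map fun y => a x y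

theorem matOf_length (l : List X) (a : X → X → Bool) : (matOf l a).length = l.length := by
  simp [matOf]

theorem ent_matOf (l : List X) (a : X → X → Bool) {i j : ℕ} (hi : i < l.length)
    (hj : j < l.length) : ent (matOf l a) i j = a l[i] l[j] := by
  simp [ent, matOf, List.getD_eq_getElem?_getD, hi, hj]

theorem isAdjMat_matOf (l : List X) (a : X → X → Bool) (hs : ∀ x y, a x y = a y x)
    (hi : ∀ x, a x x = false) : IsAdjMat (matOf l a) := by
  constructor
  · intro r hr
    rw [matOf_length]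
    simp only [matOf, List.mem_map] at hr
    obtain ⟨x, _, rfl⟩ := hr
    simp
  · intro i h1
    rw [matOf_length] at h1
    refine ⟨by rw [ent_matOf l a h1 h1, hi], fun j h2 => ?_⟩
    rw [matOf_length] at h2
    rw [ent_matOf l a h1 h2, ent_matOf l a h2 h1, hs]

/-- The graph on the elements of a list. -/
def grOn (l : List X) (a : X → X → Bool) (hs : ∀ x y, a x y = a y x)
    (hi : ∀ x, a x x = false) : SimpleGraph {x // x ∈ l} where
  Adj x y := a x.1 y.1 = true
  symm := ⟨fun x y h => by rw [hs]; exact h⟩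
  loopless := ⟨fun x h => by rw [hi] at h; exact absurd h (by simp)⟩

theorem gr_matOf [DecidableEq X] (l : List X) (hl : l.Nodup) (a : X → X → Bool)
    (hs : ∀ x y, a x y = a y x) (hi : ∀ x, a x x = false) :
    Nonempty (gr (matOf l a) ≃g grOn l a hs hi) := by
  let e : Fin (matOf l a).length ≃ {x // x ∈ l} :=
    (finCongr (matOf_length l a)).trans (List.Nodup.getEquiv l hl)
  refine ⟨⟨e, ?_⟩⟩
  intro i j
  have h1 : (i : ℕ) < l.length := by rw [← matOf_length l a]; exact i.2
  have h2 : (j : ℕ) < l.length := by rw [← matOf_length l a]; exact j.2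
  change a (e i).1 (e j).1 = true ↔ (i ≠ j ∧ ent (matOf l a) i j = true ∧
    ent (matOf l a) j i = true)
  have h3 : (e i).1 = l[(i : ℕ)] := rfl
  have h4 : (e j).1 = l[(j : ℕ)] := rfl
  rw [ent_matOf l a h1 h2, ent_matOf l a h2 h1, h3, h4, hs l[(j : ℕ)]]
  constructor
  · intro h
    refine ⟨?_, h, h⟩
    rintro rfl
    rw [hi] at h
    exact absurd h (by simp)
  · exact fun h => h.2.1

end MatOf

/-! ### Removing duplicates -/

section DD

variable {X : Type} [DecidableEq X]

/-- The list without duplicates. -/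
def dd (l : List X) : List X := l.foldr (fun a s => if a ∈ s then s else a :: s) []

theorem dd_cons (a : X) (l : List X) : dd (a :: l) = if a ∈ dd l then dd l else a :: dd l := rfl

theorem mem_dd {l : List X} {x : X} : x ∈ dd l ↔ x ∈ l := by
  induction l with
  | nil => simp [dd]
  | cons a l ih =>
    rw [dd_cons]
    split_ifs with h
    · rw [ih, List.mem_cons]
      constructor
      · exact Or.inr
      · rintro (rfl | h')
        · exact ih.1 h
        · exact h'
    · rw [List.mem_cons, List.mem_cons, ih]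

theorem nodup_dd (l : List X) : (dd l).Nodup := by
  induction l with
  | nil => simp [dd]
  | cons a l ih =>
    rw [dd_cons]
    split_ifs with h
    · exact ih
    · exact List.nodup_cons.2 ⟨h, ih⟩

end DD

/-! ### The codes of the vertices of the geodetic graph -/

/-- Codes of points. -/
abbrev PC' : Type := ℕ × ℕ

/-- The codes of the points. -/
def ptList (M : Mat) : List PC' :=
  ((List.range M.length).flatMap fun i => (List.range (M.length + 4)).map fun j => (i, j)) ++
    [(M.length, 0), (M.length, 1), (M.length, 2)]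

/-- The adjacency test. -/
def adjB (M : Mat) (i j : ℕ) : Bool := !(decide (i = j)) && (ent M i j && ent M j i)

/-- The codes of the rows. -/
def rowList (M : Mat) : List (List PC') :=
  (List.range M.length).map fun i => (List.range (M.length + 4)).map fun j => (i, j)

/-- The codes of the lines of three points. -/
def tList (M : Mat) : List (List PC') :=
  (List.range M.length).flatMap fun i =>
    ((List.range M.length).filter fun j => adjB M i j).map fun j => [(M.length, 0), (i, j), (j, i)]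

/-- The codes of the lines with more than two points. -/
def bigList (M : Mat) : List (List PC') := rowList M ++ tList M

/-- The codes of the lines with two points. -/
def pairList (M : Mat) : List (List PC') :=
  (ptList M).flatMap fun p => ((ptList M).filter fun q => !(decide (p = q)) &&
    !((bigList M).any fun B => decide (p ∈ B) && decide (q ∈ B))).map fun q => [p, q]

/-- The points of a line in the order of the list of all points. -/
def norm (M : Mat) (l : List PC') : List PC' := (ptList M).filter fun x => decide (x ∈ l)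

/-- The codes of the lines. -/
def lnList (M : Mat) : List (List PC') := (bigList M ++ pairList M).map (norm M)

/-- Codes of vertices: the second component is empty for a point and the line for a flag. -/
abbrev VC : Type := PC' × List PC'

/-- The codes of the vertices of the geodetic graph. -/
def vxList (M : Mat) : List VC :=
  dd (((ptList M).map fun p => (p, [])) ++ (lnList M).flatMap fun l => l.map fun p => (p, l))

/-- The adjacency test for codes of vertices. -/
def adjX (x y : VC) : Bool :=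
  (!(decide (x.1 = y.1)) && (decide (x.2 = y.2) && !(decide (x.2 = [])))) ||
  (decide (x.1 = y.1) && ((decide (x.2 = []) && !(decide (y.2 = []))) ||
    (decide (y.2 = []) && !(decide (x.2 = [])))))

/-- The adjacency matrix of the geodetic graph. -/
def FM (M : Mat) : Mat := matOf (vxList M) adjX

theorem adjX_symm (x y : VC) : adjX x y = adjX y x := by
  obtain ⟨a, b⟩ := x
  obtain ⟨c, d⟩ := y
  simp only [adjX]
  by_cases h1 : a = c <;> by_cases h2 : b = d <;> by_cases h3 : b = [] <;>
    by_cases h4 : d = [] <;> simp_all [eq_comm]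

theorem adjX_irrefl (x : VC) : adjX x x = false := by
  simp [adjX]

variable (M : Mat)

/-- The code of a point. -/
def cd : Pt (Fin M.length) → PC'
  | Sum.inl (i, Sum.inl j) => (i, j)
  | Sum.inl (i, Sum.inr k) => (i, M.length + k)
  | Sum.inr k => (M.length, k)

theorem cd_inj : Function.Injective (cd M) := by
  rintro (⟨i, j | k⟩ | k) (⟨i', j' | k'⟩ | k') h <;> simp only [cd, Prod.mk.injEq] at h
  · obtain ⟨h1, h2⟩ := h
    rw [Fin.ext h1, Fin.ext h2]
  · have := j.2; omega
  · have := i.2; omega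
  · have := j'.2; omega
  · obtain ⟨h1, h2⟩ := h
    have h3 : k = k' := Fin.ext (by omega)
    rw [Fin.ext h1, h3]
  · have := i.2; omega
  · have := i'.2; omega
  · have := i'.2; omega
  · rw [Fin.ext h.2]

theorem mem_ptList {x : PC'} : x ∈ ptList M ↔ ∃ p, cd M p = x := by
  simp only [ptList, List.mem_append, List.mem_flatMap, List.mem_range, List.mem_map,
    List.mem_cons, List.not_mem_nil, or_false]
  constructor
  · rintro (⟨i, hi, j, hj, rfl⟩ | rfl | rfl | rfl)
    · by_cases h : j < M.length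
      · exact ⟨Sum.inl (⟨i, hi⟩, Sum.inl ⟨j, h⟩), rfl⟩
      · refine ⟨Sum.inl (⟨i, hi⟩, Sum.inr ⟨j - M.length, by omega⟩), ?_⟩
        simp only [cd]
        rw [Nat.add_sub_cancel' (by omega)]
    · exact ⟨Sum.inr 0, rfl⟩
    · exact ⟨Sum.inr 1, rfl⟩
    · exact ⟨Sum.inr 2, rfl⟩
  · rintro ⟨⟨i, j | k⟩ | k, rfl⟩
    · exact Or.inl ⟨i, i.2, j, by omega, rfl⟩
    · exact Or.inl ⟨i, i.2, M.length + k, by omega, rfl⟩
    · right
      fin_cases k <;> simp [cd]

theorem adjB_iff (i j : Fin M.length) : adjB M i j = true ↔ (gr M).Adj i j := by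
  simp only [adjB, gr, Bool.and_eq_true, Bool.not_eq_true', decide_eq_false_iff_not, ne_eq,
    Fin.ext_iff]

theorem row_code (i : Fin M.length) (p : Pt (Fin M.length)) :
    p ∈ Row i ↔ cd M p ∈ (List.range (M.length + 4)).map fun j => ((i : ℕ), j) := by
  simp only [List.mem_map, List.mem_range, mem_Row]
  constructor
  · rintro ⟨j | k, rfl⟩
    · exact ⟨j, by omega, rfl⟩
    · exact ⟨M.length + k, by omega, rfl⟩
  · rintro ⟨j, hj, h⟩
    rcases p with ⟨i', c⟩ | k
    · have : (i : ℕ) = i' := by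
        rcases c with c | c <;> simp only [cd, Prod.mk.injEq] at h <;> exact h.1
      rw [Fin.ext this]
      exact ⟨c, rfl⟩
    · simp only [cd, Prod.mk.injEq] at h
      have := i.2
      omega

theorem t_code (i j : Fin M.length) (p : Pt (Fin M.length)) :
    p ∈ Tl i j ↔ cd M p ∈ [(M.length, 0), ((i : ℕ), (j : ℕ)), ((j : ℕ), (i : ℕ))] := by
  have h0 : cd M (Sum.inr 0) = (M.length, 0) := rfl
  have h1 : cd M (Sum.inl (i, Sum.inl j)) = ((i : ℕ), (j : ℕ)) := rfl
  have h2 : cd M (Sum.inl (j, Sum.inl i)) = ((j : ℕ), (i : ℕ)) := rfl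
  simp only [mem_Tl, List.mem_cons, List.not_mem_nil, or_false]
  rw [← h0, ← h1, ← h2, (cd_inj M).eq_iff, (cd_inj M).eq_iff, (cd_inj M).eq_iff]

theorem big_code {S : Set (Pt (Fin M.length))} (hS : Big (gr M) S) :
    ∃ B ∈ bigList M, ∀ p, p ∈ S ↔ cd M p ∈ B := by
  rcases hS with ⟨i, rfl⟩ | ⟨i, j, hij, rfl⟩
  · refine ⟨_, List.mem_append_left _ (List.mem_map.2 ⟨i, by simp, rfl⟩), row_code M i⟩
  · refine ⟨_, List.mem_append_right _ (List.mem_flatMap.2 ⟨i, by simp, List.mem_map.2 ⟨j, ?_,
      rfl⟩⟩), t_code M i j⟩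
    rw [List.mem_filter]
    exact ⟨by simp, (adjB_iff M i j).2 hij⟩

theorem code_big {B : List PC'} (hB : B ∈ bigList M) :
    ∃ S, Big (gr M) S ∧ ∀ p, p ∈ S ↔ cd M p ∈ B := by
  rcases List.mem_append.1 hB with h | h
  · simp only [rowList, List.mem_map, List.mem_range] at h
    obtain ⟨i, hi, rfl⟩ := h
    exact ⟨Row ⟨i, hi⟩, Or.inl ⟨_, rfl⟩, row_code M ⟨i, hi⟩⟩
  · simp only [tList, List.mem_flatMap, List.mem_map, List.mem_range, List.mem_filter] at h
    obtain ⟨i, hi, j, ⟨hj, h⟩, rfl⟩ := h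
    exact ⟨Tl ⟨i, hi⟩ ⟨j, hj⟩, Or.inr ⟨_, _, (adjB_iff M ⟨i, hi⟩ ⟨j, hj⟩).1 h, rfl⟩,
      t_code M ⟨i, hi⟩ ⟨j, hj⟩⟩

theorem mem_norm {l : List PC'} {p : Pt (Fin M.length)} : cd M p ∈ norm M l ↔ cd M p ∈ l := by
  simp only [norm, List.mem_filter, decide_eq_true_eq, and_iff_right_iff_imp]
  exact fun _ => (mem_ptList M).2 ⟨p, rfl⟩

theorem ln_code {S : Set (Pt (Fin M.length))} (hS : Ln (gr M) S) :
    ∃ l ∈ lnList M, ∀ p, p ∈ S ↔ cd M p ∈ l := by
  rcases hS with hS | ⟨p, q, hpq, hno, rfl⟩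
  · obtain ⟨B, hB, h⟩ := big_code M hS
    refine ⟨norm M B, List.mem_map.2 ⟨B, List.mem_append_left _ hB, rfl⟩, fun p => ?_⟩
    rw [mem_norm, h]
  · refine ⟨norm M [cd M p, cd M q], List.mem_map.2 ⟨_, List.mem_append_right _ ?_, rfl⟩,
      fun r => ?_⟩
    · refine List.mem_flatMap.2 ⟨cd M p, (mem_ptList M).2 ⟨p, rfl⟩, List.mem_map.2 ⟨cd M q, ?_,
        rfl⟩⟩
      rw [List.mem_filter]
      refine ⟨(mem_ptList M).2 ⟨q, rfl⟩, ?_⟩
      simp only [Bool.and_eq_true, Bool.not_eq_true', decide_eq_false_iff_not, List.any_eq_false,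
        decide_eq_true_eq]
      refine ⟨fun e => hpq (cd_inj M e), fun B hB h => ?_⟩
      obtain ⟨S, h1, h2⟩ := code_big M hB
      exact hno S h1 ⟨(h2 _).2 h.1, (h2 _).2 h.2⟩
    · rw [mem_norm]
      simp only [Set.mem_ofPred_eq, List.mem_cons, List.not_mem_nil, or_false,
        (cd_inj M).eq_iff]

theorem code_ln {l : List PC'} (hl : l ∈ lnList M) :
    ∃ S, Ln (gr M) S ∧ ∀ p, p ∈ S ↔ cd M p ∈ l := by
  obtain ⟨l', hl', rfl⟩ := List.mem_map.1 hl
  clear hl
  rcases List.mem_append.1 hl' with hl | hl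
  · obtain ⟨S, h1, h2⟩ := code_big M hl
    exact ⟨S, Or.inl h1, fun p => by rw [mem_norm, h2]⟩
  · simp only [pairList, List.mem_flatMap, List.mem_map, List.mem_filter, Bool.and_eq_true,
      Bool.not_eq_true', decide_eq_false_iff_not, List.any_eq_false, decide_eq_true_eq] at hl
    obtain ⟨p', hp', q', ⟨hq', hne, hno⟩, rfl⟩ := hl
    obtain ⟨p, rfl⟩ := (mem_ptList M).1 hp'
    obtain ⟨q, rfl⟩ := (mem_ptList M).1 hq'
    refine ⟨{x | x = p ∨ x = q}, Or.inr ⟨p, q, fun e => hne (by rw [e]), ?_, rfl⟩, fun r => ?_⟩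
    · intro B hB h
      obtain ⟨B', h1, h2⟩ := big_code M hB
      exact hno B' h1 ⟨(h2 _).1 h.1, (h2 _).1 h.2⟩
    · rw [mem_norm]
      simp only [Set.mem_ofPred_eq, List.mem_cons, List.not_mem_nil, or_false,
        (cd_inj M).eq_iff]

/-- The incidence relation of the codes. -/
def IncC (p : {x // x ∈ ptList M}) (l : {l // l ∈ lnList M}) : Prop := p.1 ∈ l.1

theorem incC_ext : LineExt (IncC M) := by
  rintro ⟨l, hl⟩ ⟨m, hm⟩ h
  apply Subtype.ext
  simp only
  obtain ⟨l, hl, rfl⟩ := List.mem_map.1 hl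
  obtain ⟨m, hm, rfl⟩ := List.mem_map.1 hm
  simp only [norm]
  apply List.filter_congr
  intro x hx
  have h1 := h ⟨x, hx⟩
  simp only [IncC, norm, List.mem_filter, hx, true_and, decide_eq_true_eq] at h1
  simp only [h1]

theorem GG_iso_code : Nonempty (GG (gr M) ≃g FG (IncC M)) := by
  let e : Pt (Fin M.length) ≃ {x // x ∈ ptList M} :=
    Equiv.ofBijective (fun p => ⟨cd M p, (mem_ptList M).2 ⟨p, rfl⟩⟩)
      ⟨fun p q h => cd_inj M (Subtype.ext_iff.1 h), fun ⟨x, hx⟩ => by
        obtain ⟨p, rfl⟩ := (mem_ptList M).1 hx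
        exact ⟨p, rfl⟩⟩
  refine FG_iso (inc_ext _) (incC_ext M) e ?_ ?_
  · rintro ⟨S, hS⟩
    obtain ⟨l, h1, h2⟩ := ln_code M hS
    exact ⟨⟨l, h1⟩, h2⟩
  · rintro ⟨l, hl⟩
    obtain ⟨S, h1, h2⟩ := code_ln M hl
    exact ⟨⟨S, h1⟩, h2⟩

theorem mem_vxList {x : VC} : x ∈ vxList M ↔
    (x.1 ∈ ptList M ∧ x.2 = []) ∨ (x.2 ∈ lnList M ∧ x.1 ∈ x.2) := by
  obtain ⟨p, l⟩ := x
  rw [vxList, mem_dd, List.mem_append]
  simp only [List.mem_map, List.mem_flatMap, Prod.mk.injEq]
  constructor
  · rintro (⟨q, h1, rfl, rfl⟩ | ⟨m, h1, q, h2, rfl, rfl⟩)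
    · exact Or.inl ⟨h1, rfl⟩
    · exact Or.inr ⟨h1, h2⟩
  · rintro (⟨h1, rfl⟩ | ⟨h1, h2⟩)
    · exact Or.inl ⟨p, h1, rfl, rfl⟩
    · exact Or.inr ⟨l, h1, p, h2, rfl, rfl⟩

theorem mem_pt_of_ln {p : PC'} {l : List PC'} (h : l ∈ lnList M) (hp : p ∈ l) : p ∈ ptList M := by
  obtain ⟨m, _, rfl⟩ := List.mem_map.1 h
  exact (List.mem_filter.1 hp).1

theorem code_iso_gr : Nonempty (FG (IncC M) ≃g grOn (vxList M) adjX adjX_symm adjX_irrefl) := by
  let f : {x // x ∈ ptList M} ⊕ {x : {x // x ∈ ptList M} × {l // l ∈ lnList M} //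
      IncC M x.1 x.2} → {x // x ∈ vxList M} := fun a => match a with
    | Sum.inl p => ⟨(p.1, []), (mem_vxList M).2 (Or.inl ⟨p.2, rfl⟩)⟩
    | Sum.inr x => ⟨(x.1.1.1, x.1.2.1), (mem_vxList M).2 (Or.inr ⟨x.1.2.2, x.2⟩)⟩
  have hne : ∀ x : {x : {x // x ∈ ptList M} × {l // l ∈ lnList M} // IncC M x.1 x.2},
      x.1.2.1 ≠ [] := by
    intro x h
    have := x.2
    simp only [IncC, h] at this
    simp at this
  have hf : Function.Bijective f := by
    constructor
    · rintro (p | x) (q | y) h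
      · have h' := congrArg Subtype.val h
        simp only [f, Prod.mk.injEq, and_true] at h'
        rw [Subtype.ext h']
      · have h' := congrArg Subtype.val h
        simp only [f, Prod.mk.injEq] at h'
        exact absurd h'.2.symm (hne y)
      · have h' := congrArg Subtype.val h
        simp only [f, Prod.mk.injEq] at h'
        exact absurd h'.2 (hne x)
      · have h' := congrArg Subtype.val h
        simp only [f, Prod.mk.injEq] at h'
        congr 1
        exact Subtype.ext (Prod.ext (Subtype.ext h'.1) (Subtype.ext h'.2))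
    · rintro ⟨⟨p, l⟩, hx⟩
      rcases (mem_vxList M).1 hx with ⟨h1, h2⟩ | ⟨h1, h2⟩
      · simp only at h1 h2
        subst h2
        exact ⟨Sum.inl ⟨p, h1⟩, rfl⟩
      · exact ⟨Sum.inr ⟨(⟨p, mem_pt_of_ln M h1 h2⟩, ⟨l, h1⟩), h2⟩, rfl⟩
  refine ⟨⟨Equiv.ofBijective f hf, ?_⟩⟩
  rintro (p | x) (q | y)
  · change adjX (p.1, []) (q.1, []) = true ↔ False
    simp [adjX]
  · change adjX (p.1, []) (y.1.1.1, y.1.2.1) = true ↔ y.1.1 = p
    simp only [adjX, Bool.or_eq_true, Bool.and_eq_true, Bool.not_eq_true', decide_eq_true_eq,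
      decide_eq_false_iff_not, hne y, Subtype.ext_iff]
    simp [eq_comm]
  · change adjX (x.1.1.1, x.1.2.1) (q.1, []) = true ↔ x.1.1 = q
    simp only [adjX, Bool.or_eq_true, Bool.and_eq_true, Bool.not_eq_true', decide_eq_true_eq,
      decide_eq_false_iff_not, hne x, Subtype.ext_iff]
    simp
  · change adjX (x.1.1.1, x.1.2.1) (y.1.1.1, y.1.2.1) = true ↔ (x.1.1 ≠ y.1.1 ∧ x.1.2 = y.1.2)
    simp only [adjX, Bool.or_eq_true, Bool.and_eq_true, Bool.not_eq_true', decide_eq_true_eq,
      decide_eq_false_iff_not, hne x, hne y, ne_eq, Subtype.ext_iff]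
    simp

theorem FM_isAdjMat : IsAdjMat (FM M) := isAdjMat_matOf _ _ adjX_symm adjX_irrefl

theorem FM_iso : Nonempty (gr (FM M) ≃g GG (gr M)) := by
  obtain ⟨e1⟩ := gr_matOf (vxList M) (nodup_dd _) adjX adjX_symm adjX_irrefl
  obtain ⟨e2⟩ := code_iso_gr M
  obtain ⟨e3⟩ := GG_iso_code M
  exact ⟨e1.trans (e2.symm.trans e3.symm)⟩

end Pool.Agent.H910R3.Geo
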