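import Mathlib

/-!
# Flag graphs of linear spaces are geodetic

A graph is geodetic if it is connected and any two vertices are joined by exactly one shortest path.
The flag graph of a linear space (any two points are on exactly one line) has as vertices the points
and the flags `(p, ℓ)`, `p ∈ ℓ`; the point `p` is adjacent to the flags `(p, ℓ)`, and two flags are
adjacent if they have the same line.
-/

set_option autoImplicit false

namespace Pool.Agent.H910R3.Geo

open SimpleGraph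

/-- A graph is geodetic if it is connected and any two vertices are joined by exactly one shortest
path. -/
def Geodetic {V : Type} (G : SimpleGraph V) : Prop :=
  G.Connected ∧ ∀ u v : V, ∃! p : G.Path u v, (p : G.Walk u v).length = G.dist u v

/-- A graph is 2-connected if it has at least three vertices and stays connected whenever one vertex
is removed. -/
def TwoConnected {V : Type} (G : SimpleGraph V) : Prop :=
  (∃ a b c : V, a ≠ b ∧ a ≠ c ∧ b ≠ c) ∧ ∀ x : V, (G.induce {v | v ≠ x}).Connected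

section Potential

variable {V : Type} {G : SimpleGraph V} (f : V → V → ℕ)

theorem le_length (h0 : ∀ v, f v v = 0) (hl : ∀ v a b, G.Adj a b → f v a ≤ f v b + 1) {u v : V}
    (p : G.Walk u v) : f v u ≤ p.length := by
  induction p with
  | nil => simp [h0]
  | @cons a b c h p ih =>
    have := hl c _ _ h
    simp only [Walk.length_cons]
    omega

theorem exists_unique_walk (h0 : ∀ v, f v v = 0) (hl : ∀ v a b, G.Adj a b → f v a ≤ f v b + 1)
    (hu : ∀ v u, u ≠ v → ∃! w, G.Adj u w ∧ f v w + 1 = f v u) (v : V) :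
    ∀ (n : ℕ) (u : V), f v u = n → ∃! p : G.Walk u v, p.length = n
  | 0, u, h => by
    have huv : u = v := by
      by_contra hne
      obtain ⟨w, hw, _⟩ := hu v u hne
      omega
    subst huv
    refine ⟨Walk.nil, rfl, fun q hq => ?_⟩
    cases q with
    | nil => rfl
    | cons => simp at hq
  | n + 1, u, h => by
    have huv : u ≠ v := by
      rintro rfl
      rw [h0] at h
      omega
    obtain ⟨w, ⟨hw1, hw2⟩, hw3⟩ := hu v u huv
    obtain ⟨p, hp, hp'⟩ := exists_unique_walk h0 hl hu v n w (by omega)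
    refine ⟨Walk.cons hw1 p, by simp only [Walk.length_cons]; omega, fun q hq => ?_⟩
    cases q with
    | nil => exact absurd rfl huv
    | @cons _ w' _ h' q' =>
      simp only [Walk.length_cons, Nat.add_right_cancel_iff] at hq
      have h1 := le_length f h0 hl q'
      have h2 := hl v _ _ h'
      have h3 : w' = w := hw3 w' ⟨h', by omega⟩
      subst h3
      rw [hp' q' hq]

theorem geodetic_of_potential [Nonempty V] (h0 : ∀ v, f v v = 0)
    (hl : ∀ v a b, G.Adj a b → f v a ≤ f v b + 1)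
    (hu : ∀ v u, u ≠ v → ∃! w, G.Adj u w ∧ f v w + 1 = f v u) :
    Geodetic G ∧ ∀ u v, G.dist u v = f v u := by
  have key := fun v u => exists_unique_walk f h0 hl hu v (f v u) u rfl
  have hr : ∀ u v, G.Reachable u v := fun u v => by
    obtain ⟨p, _⟩ := key v u
    exact ⟨p⟩
  have hd : ∀ u v, G.dist u v = f v u := fun u v => by
    obtain ⟨p, hp, _⟩ := key v u
    obtain ⟨q, hq⟩ := (hr u v).exists_walk_length_eq_dist
    have h1 := SimpleGraph.dist_le p
    have h2 := le_length f h0 hl q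
    omega
  refine ⟨⟨⟨fun u v => hr u v⟩, fun u v => ?_⟩, hd⟩
  obtain ⟨p, hp, hp'⟩ := key v u
  have hpp : p.IsPath := p.isPath_of_length_eq_dist (by rw [hd]; exact hp)
  refine ⟨⟨p, hpp⟩, by rw [hd]; exact hp, fun q hq => ?_⟩
  apply Subtype.ext
  apply hp'
  rw [← hd]
  exact hq

end Potential

section FG

variable {P L : Type} (I : P → L → Prop)

/-- The flag graph of an incidence structure. -/
def FG : SimpleGraph (P ⊕ {x : P × L // I x.1 x.2}) where
  Adj a b := match a, b with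
    | Sum.inl _, Sum.inl _ => False
    | Sum.inl p, Sum.inr x => x.1.1 = p
    | Sum.inr x, Sum.inl p => x.1.1 = p
    | Sum.inr x, Sum.inr y => x.1.1 ≠ y.1.1 ∧ x.1.2 = y.1.2
  symm := ⟨by
    rintro (a | a) (b | b) h
    · exact h
    · exact h
    · exact h
    · exact ⟨h.1.symm, h.2.symm⟩⟩
  loopless := ⟨by
    rintro (a | a) h
    · exact h
    · exact h.1 rfl⟩

/-- Any two points are on exactly one line. -/
def Linear : Prop := ∀ p q : P, p ≠ q → ∃! l, I p l ∧ I q l

variable {I}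

theorem Linear.eq (h : Linear I) {p q : P} (hpq : p ≠ q) {l m : L} (h1 : I p l) (h2 : I q l)
    (h3 : I p m) (h4 : I q m) : l = m :=
  (h p q hpq).unique ⟨h1, h2⟩ ⟨h3, h4⟩

open scoped Classical

variable (I) in
/-- Two lines meet. -/
def Meet (l m : L) : Prop := ∃ z, I z l ∧ I z m

theorem meet_of {z : P} {l m : L} (h : I z l) (h' : I z m) : Meet I l m := ⟨z, h, h'⟩

/-- The distance in the flag graph. -/
noncomputable def fd (a b : P ⊕ {x : P × L // I x.1 x.2}) : ℕ :=
  match a, b with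
  | Sum.inl x, Sum.inl y => if y = x then 0 else 3
  | Sum.inl x, Sum.inr y => if y.1.1 = x then 1 else if I x y.1.2 then 2 else 4
  | Sum.inr x, Sum.inl y => if y = x.1.1 then 1 else if I y x.1.2 then 2 else 4
  | Sum.inr x, Sum.inr y =>
    if y.1.2 = x.1.2 then (if y.1.1 = x.1.1 then 0 else 1) else
    if y.1.1 = x.1.1 then 2 else if I y.1.1 x.1.2 then 3 else if I x.1.1 y.1.2 then 3 else
    if Meet I y.1.2 x.1.2 then 4 else 5

theorem fd_ll (x y : P) : fd (I := I) (Sum.inl x) (Sum.inl y) = if y = x then 0 else 3 := rfl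

theorem fd_lr (x y : P) (m : L) (h : I y m) : fd (I := I) (Sum.inl x) (Sum.inr ⟨(y, m), h⟩) =
    if y = x then 1 else if I x m then 2 else 4 := rfl

theorem fd_rl (x y : P) (l : L) (h : I x l) : fd (I := I) (Sum.inr ⟨(x, l), h⟩) (Sum.inl y) =
    if y = x then 1 else if I y l then 2 else 4 := rfl

theorem fd_rr (x y : P) (l m : L) (h : I x l) (h' : I y m) :
    fd (I := I) (Sum.inr ⟨(x, l), h⟩) (Sum.inr ⟨(y, m), h'⟩) =
    if m = l then (if y = x then 0 else 1) else if y = x then 2 else if I y l then 3 else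
    if I x m then 3 else if Meet I m l then 4 else 5 := rfl

theorem adj_ll (x y : P) : ¬ (FG I).Adj (Sum.inl x) (Sum.inl y) := fun h => h

theorem adj_lr (x y : P) (m : L) (h : I y m) :
    (FG I).Adj (Sum.inl x) (Sum.inr ⟨(y, m), h⟩) ↔ y = x := Iff.rfl

theorem adj_rl (x y : P) (m : L) (h : I y m) :
    (FG I).Adj (Sum.inr ⟨(y, m), h⟩) (Sum.inl x) ↔ y = x := Iff.rfl

theorem adj_rr (x y : P) (l m : L) (h : I x l) (h' : I y m) :
    (FG I).Adj (Sum.inr ⟨(x, l), h⟩) (Sum.inr ⟨(y, m), h'⟩) ↔ x ≠ y ∧ l = m := Iff.rfl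

theorem fd_self (a : P ⊕ {x : P × L // I x.1 x.2}) : fd a a = 0 := by
  rcases a with a | a <;> simp [fd]

theorem fd_le (a b : P ⊕ {x : P × L // I x.1 x.2}) : fd a b ≤ 5 := by
  rcases a with a | a <;> rcases b with b | b <;> simp only [fd] <;> split_ifs <;> omega

theorem fd_lip (hI : Linear I) (v a b : P ⊕ {x : P × L // I x.1 x.2}) (h : (FG I).Adj a b) :
    fd v a ≤ fd v b + 1 := by
  have hI' : ∀ (p q : P) (l m : L), p ≠ q → I p l → I q l → I p m → I q m → l = m :=
    fun p q l m h0 h1 h2 h3 h4 => hI.eq h0 h1 h2 h3 h4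
  have hM : ∀ (z : P) (l m : L), I z l → I z m → Meet I l m := fun z l m => meet_of
  rcases v with x | ⟨⟨x, l⟩, hx⟩ <;> rcases a with a | ⟨⟨a, m⟩, ha⟩ <;>
    rcases b with b | ⟨⟨b, k⟩, hb⟩ <;>
    simp only [adj_ll, adj_lr, adj_rl, adj_rr, fd_ll, fd_lr, fd_rl, fd_rr] at h ⊢
  · grind
  · grind
  · grind
  · grind
  · grind
  · grind

theorem fd_unique (hI : Linear I) (v u : P ⊕ {x : P × L // I x.1 x.2}) (h : u ≠ v) :
    ∃! w, (FG I).Adj u w ∧ fd v w + 1 = fd v u := by
  have hI' : ∀ (p q : P) (l m : L), p ≠ q → I p l → I q l → I p m → I q m → l = m :=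
    fun p q l m h0 h1 h2 h3 h4 => hI.eq h0 h1 h2 h3 h4
  have hM : ∀ (z : P) (l m : L), I z l → I z m → Meet I l m := fun z l m => meet_of
  rcases v with x | ⟨⟨x, l⟩, hx⟩ <;> rcases u with a | ⟨⟨a, m⟩, ha⟩
  · have hax : a ≠ x := fun e => h (by rw [e])
    obtain ⟨m, ⟨h1, h2⟩, h3⟩ := hI a x hax
    refine ⟨Sum.inr ⟨(a, m), h1⟩, ⟨rfl, ?_⟩, ?_⟩
    · rw [fd_ll, fd_lr]; grind
    · rintro (b | ⟨⟨b, k⟩, hb⟩) ⟨hw1, hw2⟩
      · exact absurd hw1 (adj_ll _ _)
      · rw [adj_lr] at hw1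
        subst hw1
        rw [fd_ll, fd_lr] at hw2
        have : k = m := by grind
        subst this
        rfl
  · rw [fd_lr]
    by_cases hax : a = x
    · subst hax
      refine ⟨Sum.inl a, ⟨rfl, ?_⟩, ?_⟩
      · rw [fd_ll]; grind
      · rintro (b | ⟨⟨b, k⟩, hb⟩) ⟨hw1, hw2⟩
        · rw [adj_rl] at hw1
          subst hw1
          rfl
        · rw [adj_rr] at hw1
          rw [fd_lr] at hw2
          grind
    · by_cases hxm : I x m
      · refine ⟨Sum.inr ⟨(x, m), hxm⟩, ⟨⟨hax, rfl⟩, ?_⟩, ?_⟩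
        · rw [fd_lr]; grind
        · rintro (b | ⟨⟨b, k⟩, hb⟩) ⟨hw1, hw2⟩
          · rw [adj_rl] at hw1
            rw [fd_ll] at hw2
            grind
          · rw [adj_rr] at hw1
            rw [fd_lr] at hw2
            grind
      · refine ⟨Sum.inl a, ⟨rfl, ?_⟩, ?_⟩
        · rw [fd_ll]; grind
        · rintro (b | ⟨⟨b, k⟩, hb⟩) ⟨hw1, hw2⟩
          · rw [adj_rl] at hw1
            subst hw1
            rfl
          · rw [adj_rr] at hw1
            rw [fd_lr] at hw2
            grind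
  · rw [fd_rl]
    by_cases hax : a = x
    · subst hax
      refine ⟨Sum.inr ⟨(a, l), hx⟩, ⟨rfl, ?_⟩, ?_⟩
      · rw [fd_rr]; grind
      · rintro (b | ⟨⟨b, k⟩, hb⟩) ⟨hw1, hw2⟩
        · exact absurd hw1 (adj_ll _ _)
        · rw [adj_lr] at hw1
          rw [fd_rr] at hw2
          grind
    · by_cases hal : I a l
      · refine ⟨Sum.inr ⟨(a, l), hal⟩, ⟨rfl, ?_⟩, ?_⟩
        · rw [fd_rr]; grind
        · rintro (b | ⟨⟨b, k⟩, hb⟩) ⟨hw1, hw2⟩
          · exact absurd hw1 (adj_ll _ _)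
          · rw [adj_lr] at hw1
            rw [fd_rr] at hw2
            grind
      · obtain ⟨m, ⟨h1, h2⟩, h3⟩ := hI a x hax
        have hml : m ≠ l := by rintro rfl; exact hal h1
        refine ⟨Sum.inr ⟨(a, m), h1⟩, ⟨rfl, ?_⟩, ?_⟩
        · rw [fd_rr]; grind
        · rintro (b | ⟨⟨b, k⟩, hb⟩) ⟨hw1, hw2⟩
          · exact absurd hw1 (adj_ll _ _)
          · rw [adj_lr] at hw1
            rw [fd_rr] at hw2
            grind
  · rw [fd_rr]
    have hne : ¬ (a = x ∧ m = l) := by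
      rintro ⟨rfl, rfl⟩
      exact h rfl
    by_cases hml : m = l
    · subst hml
      have hax : a ≠ x := fun e => hne ⟨e, rfl⟩
      refine ⟨Sum.inr ⟨(x, m), hx⟩, ⟨⟨hax, rfl⟩, ?_⟩, ?_⟩
      · rw [fd_rr]; grind
      · rintro (b | ⟨⟨b, k⟩, hb⟩) ⟨hw1, hw2⟩
        · rw [adj_rl] at hw1
          rw [fd_rl] at hw2
          grind
        · rw [adj_rr] at hw1
          rw [fd_rr] at hw2
          grind
    by_cases hax : a = x
    · subst hax
      refine ⟨Sum.inl a, ⟨rfl, ?_⟩, ?_⟩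
      · rw [fd_rl]; grind
      · rintro (b | ⟨⟨b, k⟩, hb⟩) ⟨hw1, hw2⟩
        · rw [adj_rl] at hw1
          subst hw1
          rfl
        · rw [adj_rr] at hw1
          rw [fd_rr] at hw2
          grind
    by_cases hal : I a l
    · refine ⟨Sum.inl a, ⟨rfl, ?_⟩, ?_⟩
      · rw [fd_rl]; grind
      · rintro (b | ⟨⟨b, k⟩, hb⟩) ⟨hw1, hw2⟩
        · rw [adj_rl] at hw1
          subst hw1
          rfl
        · rw [adj_rr] at hw1
          rw [fd_rr] at hw2
          grind
    by_cases hxm : I x m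
    · refine ⟨Sum.inr ⟨(x, m), hxm⟩, ⟨⟨hax, rfl⟩, ?_⟩, ?_⟩
      · rw [fd_rr]; grind
      · rintro (b | ⟨⟨b, k⟩, hb⟩) ⟨hw1, hw2⟩
        · rw [adj_rl] at hw1
          rw [fd_rl] at hw2
          grind
        · rw [adj_rr] at hw1
          rw [fd_rr] at hw2
          grind
    by_cases hM' : Meet I m l
    · obtain ⟨y, hy1, hy2⟩ := hM'
      have hay : a ≠ y := by rintro rfl; exact hal hy2
      have hMe : Meet I m l := ⟨y, hy1, hy2⟩
      refine ⟨Sum.inr ⟨(y, m), hy1⟩, ⟨⟨hay, rfl⟩, ?_⟩, ?_⟩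
      · rw [fd_rr]; grind
      · rintro (b | ⟨⟨b, k⟩, hb⟩) ⟨hw1, hw2⟩
        · rw [adj_rl] at hw1
          rw [fd_rl] at hw2
          grind
        · rw [adj_rr] at hw1
          rw [fd_rr] at hw2
          grind
    · refine ⟨Sum.inl a, ⟨rfl, ?_⟩, ?_⟩
      · rw [fd_rl]; grind
      · rintro (b | ⟨⟨b, k⟩, hb⟩) ⟨hw1, hw2⟩
        · rw [adj_rl] at hw1
          subst hw1
          rfl
        · rw [adj_rr] at hw1
          rw [fd_rr] at hw2
          grind

theorem FG_geodetic [Nonempty P] (hI : Linear I) :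
    Geodetic (FG I) ∧ ∀ u v, (FG I).dist u v ≤ 5 := by
  obtain ⟨h1, h2⟩ := geodetic_of_potential (G := FG I) fd fd_self (fd_lip hI) (fd_unique hI)
  exact ⟨h1, fun u v => by rw [h2]; exact fd_le _ _⟩

end FG

end Pool.Agent.H910R3.Geo
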