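import Pool.Agent.H910R3.Geo.Flag

/-!
# Flag graphs: 2-connectivity and isomorphisms
-/

set_option autoImplicit false

namespace Pool.Agent.H910R3.Geo

open SimpleGraph

section TwoConn

variable {V : Type} {G : SimpleGraph V}

/-- `a` and `b` are different from `x` and joined by a walk avoiding `x`. -/
def Av (G : SimpleGraph V) (x a b : V) : Prop :=
  ∃ (ha : a ≠ x) (hb : b ≠ x), (G.induce {v | v ≠ x}).Reachable ⟨a, ha⟩ ⟨b, hb⟩

theorem Av.symm {x a b : V} (h : Av G x a b) : Av G x b a := by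
  obtain ⟨ha, hb, h⟩ := h
  exact ⟨hb, ha, h.symm⟩

theorem Av.trans {x a b c : V} (h : Av G x a b) (h' : Av G x b c) : Av G x a c := by
  obtain ⟨ha, hb, h⟩ := h
  obtain ⟨hb', hc, h'⟩ := h'
  exact ⟨ha, hc, h.trans h'⟩

theorem Av.refl {x a : V} (h : a ≠ x) : Av G x a a := ⟨h, h, Reachable.refl _⟩

theorem Av.adj {x a b : V} (ha : a ≠ x) (hb : b ≠ x) (h : G.Adj a b) : Av G x a b := by
  refine ⟨ha, hb, ?_⟩
  apply SimpleGraph.Adj.reachable
  simpa using h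

end TwoConn

section FG

variable {P L : Type} {I : P → L → Prop}

theorem av_points (x : P ⊕ {x : P × L // I x.1 x.2}) {y z : P} {l : L} (hy : I y l) (hz : I z l)
    (h1 : Sum.inl y ≠ x) (h2 : Sum.inl z ≠ x) (h3 : Sum.inr ⟨(y, l), hy⟩ ≠ x)
    (h4 : Sum.inr ⟨(z, l), hz⟩ ≠ x) : Av (FG I) x (Sum.inl y) (Sum.inl z) := by
  by_cases hyz : y = z
  · subst hyz
    exact Av.refl h1
  exact (Av.adj h1 h3 ((adj_lr _ _ _ _).2 rfl)).trans
    ((Av.adj h3 h4 ((adj_rr _ _ _ _ _ _).2 ⟨hyz, rfl⟩)).trans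
      (Av.adj h4 h2 ((adj_rl _ _ _ _).2 rfl)))

theorem FG_twoConnected (hI : Linear I) (h2 : ∀ l, ∃ p q, p ≠ q ∧ I p l ∧ I q l)
    (h3 : ∀ l, ∃ p, ¬ I p l) (hP : ∃ p q : P, p ≠ q) : TwoConnected (FG I) := by
  obtain ⟨p₀, q₀, hpq⟩ := hP
  have hpts : ∀ (x : P ⊕ {x : P × L // I x.1 x.2}) (y z : P), Sum.inl y ≠ x → Sum.inl z ≠ x →
      Av (FG I) x (Sum.inl y) (Sum.inl z) := by
    intro x y z hy hz
    by_cases hyz : y = z
    · subst hyz
      exact Av.refl hy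
    rcases x with x | ⟨⟨x, l⟩, hx⟩
    · obtain ⟨l, ⟨h5, h6⟩, _⟩ := hI y z hyz
      exact av_points _ h5 h6 hy hz (by simp) (by simp)
    · have key : ∀ (y z : P) (m : L), I y m → I z m → m ≠ l →
          Av (FG I) (Sum.inr ⟨(x, l), hx⟩) (Sum.inl y) (Sum.inl z) := by
        intro y z m h5 h6 h7
        refine av_points _ h5 h6 (by simp) (by simp) ?_ ?_
        · intro e
          simp only [Sum.inr.injEq, Subtype.mk.injEq, Prod.mk.injEq] at e
          exact h7 e.2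
        · intro e
          simp only [Sum.inr.injEq, Subtype.mk.injEq, Prod.mk.injEq] at e
          exact h7 e.2
      obtain ⟨m, ⟨h5, h6⟩, _⟩ := hI y z hyz
      by_cases hm : m = l
      · subst hm
        obtain ⟨w, hw⟩ := h3 m
        have hyw : y ≠ w := by rintro rfl; exact hw h5
        have hwz : w ≠ z := by rintro rfl; exact hw h6
        obtain ⟨m1, ⟨h7, h8⟩, _⟩ := hI y w hyw
        obtain ⟨m2, ⟨h9, h10⟩, _⟩ := hI w z hwz
        exact (key y w m1 h7 h8 (by rintro rfl; exact hw h8)).trans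
          (key w z m2 h9 h10 (by rintro rfl; exact hw h9))
      · exact key y z m h5 h6 hm
  have hfl : ∀ (x a : P ⊕ {x : P × L // I x.1 x.2}), a ≠ x →
      ∃ y, Sum.inl y ≠ x ∧ Av (FG I) x a (Sum.inl y) := by
    intro x a hax
    rcases a with a | ⟨⟨a, m⟩, ha⟩
    · exact ⟨a, hax, Av.refl hax⟩
    · by_cases h : Sum.inl a = x
      · subst h
        obtain ⟨p, q, h5, h6, h7⟩ := h2 m
        have : ∃ z, z ≠ a ∧ I z m := by
          by_cases h8 : p = a
          · exact ⟨q, fun e => h5 (by rw [h8, e]), h7⟩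
          · exact ⟨p, h8, h6⟩
        obtain ⟨z, h8, h9⟩ := this
        have e1 : (FG I).Adj (Sum.inr ⟨(a, m), ha⟩) (Sum.inr ⟨(z, m), h9⟩) :=
          (adj_rr _ _ _ _ _ _).2 ⟨h8.symm, rfl⟩
        have e2 : (FG I).Adj (Sum.inr ⟨(z, m), h9⟩) (Sum.inl z) := (adj_rl _ _ _ _).2 rfl
        exact ⟨z, by simpa using h8, (Av.adj hax (by simp) e1).trans
            (Av.adj (by simp) (by simpa using h8) e2)⟩
      · exact ⟨a, h, Av.adj hax h rfl⟩
  constructor
  · obtain ⟨l, ⟨h5, h6⟩, _⟩ := hI p₀ q₀ hpq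
    obtain ⟨r, hr⟩ := h3 l
    refine ⟨Sum.inl p₀, Sum.inl q₀, Sum.inl r, by simpa using hpq, ?_, ?_⟩
    · rintro e
      simp only [Sum.inl.injEq] at e
      subst e
      exact hr h5
    · rintro e
      simp only [Sum.inl.injEq] at e
      subst e
      exact hr h6
  · intro x
    have hne : ∃ y : P, Sum.inl y ≠ x := by
      rcases x with x | x
      · by_cases h : p₀ = x
        · exact ⟨q₀, by simp only [ne_eq, Sum.inl.injEq]; rintro rfl; exact hpq h⟩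
        · exact ⟨p₀, by simpa using h⟩
      · exact ⟨p₀, by simp⟩
    obtain ⟨y₀, hy₀⟩ := hne
    have : Nonempty {v : P ⊕ {x : P × L // I x.1 x.2} | v ≠ x} := ⟨⟨_, hy₀⟩⟩
    refine ⟨?_⟩
    rintro ⟨a, ha⟩ ⟨b, hb⟩
    obtain ⟨y, hy, h5⟩ := hfl x a ha
    obtain ⟨z, hz, h6⟩ := hfl x b hb
    obtain ⟨_, _, h7⟩ := (h5.trans (hpts x y z hy hz)).trans h6.symm
    exact h7

/-- Lines are determined by their points. -/
def LineExt (I : P → L → Prop) : Prop := ∀ l m, (∀ p, I p l ↔ I p m) → l = m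

theorem FG_iso {P' L' : Type} {I' : P' → L' → Prop} (hx : LineExt I) (hx' : LineExt I')
    (e : P ≃ P') (h1 : ∀ l, ∃ l', ∀ p, I p l ↔ I' (e p) l')
    (h2 : ∀ l', ∃ l, ∀ p, I p l ↔ I' (e p) l') : Nonempty (FG I ≃g FG I') := by
  choose f hf using h1
  choose g hg using h2
  have hfg : ∀ l', f (g l') = l' := fun l' => hx' _ _ fun p' => by
    obtain ⟨p, rfl⟩ := e.surjective p'
    rw [← hf, hg]
  have hgf : ∀ l, g (f l) = l := fun l => hx _ _ fun p => by rw [hg, ← hf]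
  let eL : L ≃ L' := ⟨f, g, hgf, hfg⟩
  let E : {x : P × L // I x.1 x.2} ≃ {x : P' × L' // I' x.1 x.2} :=
    (e.prodCongr eL).subtypeEquiv fun x => hf x.2 x.1
  refine ⟨⟨e.sumCongr E, ?_⟩⟩
  rintro (a | ⟨⟨a, m⟩, ha⟩) (b | ⟨⟨b, k⟩, hb⟩)
  · exact Iff.rfl
  · change e b = e a ↔ b = a
    exact e.injective.eq_iff
  · change e a = e b ↔ a = b
    exact e.injective.eq_iff
  · change (e a ≠ e b ∧ eL m = eL k) ↔ (a ≠ b ∧ m = k)
    rw [eL.injective.eq_iff, Ne, e.injective.eq_iff]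

end FG

end Pool.Agent.H910R3.Geo
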