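import Pool.Agent.H910R3.Geo.Recog

/-!
# Isomorphism of geodetic graphs is GI-complete
-/

set_option autoImplicit false

namespace Pool.Agent.H910R3.Geo

open SimpleGraph

/-- The graph isomorphism problem, for graphs given by adjacency matrices. -/
def GraphIso (p : Mat × Mat) : Prop :=
  IsAdjMat p.1 ∧ IsAdjMat p.2 ∧ Nonempty (gr p.1 ≃g gr p.2)

/-- The isomorphism problem for geodetic graphs given by adjacency matrices. -/
def GeodeticIso (p : Mat × Mat) : Prop :=
  IsAdjMat p.1 ∧ IsAdjMat p.2 ∧ Geodetic (gr p.1) ∧ Geodetic (gr p.2) ∧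
    Nonempty (gr p.1 ≃g gr p.2)

theorem geodetic_of_iso {V W : Type} {G : SimpleGraph V} {H : SimpleGraph W} (e : G ≃g H)
    (h : Geodetic H) : Geodetic G := by
  have hH := h.1
  have hG : G.Connected := e.connected_iff.2 hH
  rw [geodetic_iff hG]
  rw [geodetic_iff hH] at h
  intro v u huv
  obtain ⟨w, ⟨hw1, hw2⟩, hw3⟩ := h (e v) (e u) (fun h' => huv (e.injective h'))
  have hd : ∀ a b, G.dist a b = H.dist (e a) (e b) := fun a b => by
    apply le_antisymm
    · obtain ⟨p, hp⟩ := (hH.preconnected (e a) (e b)).exists_walk_length_eq_dist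
      have h1 := SimpleGraph.dist_le ((p.map e.symm.toHom).copy (e.symm_apply_apply a)
        (e.symm_apply_apply b))
      simpa [hp] using h1
    · obtain ⟨p, hp⟩ := (hG.preconnected a b).exists_walk_length_eq_dist
      have h1 := SimpleGraph.dist_le (p.map e.toHom)
      simpa [hp] using h1
  obtain ⟨w, rfl⟩ := e.surjective w
  refine ⟨w, ⟨e.map_adj_iff.1 hw1, by rw [hd, hd, hw2]⟩, fun w' hw' => ?_⟩
  exact e.injective (hw3 (e w') ⟨e.map_adj_iff.2 hw'.1, by rw [← hd, ← hd, hw'.2]⟩)

theorem dist_le_of_iso {V W : Type} {G : SimpleGraph V} {H : SimpleGraph W} (e : G ≃g H)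
    (hH : H.Connected) {k : ℕ} (h : ∀ u v, H.dist u v ≤ k) : ∀ u v, G.dist u v ≤ k := by
  intro a b
  obtain ⟨p, hp⟩ := (hH.preconnected (e a) (e b)).exists_walk_length_eq_dist
  have h1 := SimpleGraph.dist_le ((p.map e.symm.toHom).copy (e.symm_apply_apply a)
    (e.symm_apply_apply b))
  have h2 := h (e a) (e b)
  simp only [Walk.length_copy, Walk.length_map, hp] at h1
  omega

theorem twoConnected_of_iso {V W : Type} {G : SimpleGraph V} {H : SimpleGraph W} (e : G ≃g H)
    (h : TwoConnected H) : TwoConnected G := by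
  obtain ⟨⟨a, b, c, h1, h2, h3⟩, h⟩ := h
  refine ⟨⟨e.symm a, e.symm b, e.symm c, fun h' => h1 (e.symm.injective h'),
    fun h' => h2 (e.symm.injective h'), fun h' => h3 (e.symm.injective h')⟩, fun x => ?_⟩
  let E : {v | v ≠ x} ≃ {v | v ≠ e x} := e.toEquiv.subtypeEquiv fun v => by
    change v ≠ x ↔ e v ≠ e x
    rw [ne_eq, ne_eq, e.injective.eq_iff]
  let E' : G.induce {v | v ≠ x} ≃g H.induce {v | v ≠ e x} :=
    ⟨E, fun {a b} => (e.map_adj_iff : H.Adj (e a.1) (e b.1) ↔ G.Adj a.1 b.1)⟩
  exact E'.connected_iff.2 (h (e x))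

/-- The matrix test. -/
def isAdj (M : Mat) : Bool :=
  (M.all fun r => decide (r.length = M.length)) && (List.range M.length).all fun i =>
    !(ent M i i) && (List.range M.length).all fun j => decide (ent M i j = ent M j i)

theorem isAdj_iff (M : Mat) : isAdj M = true ↔ IsAdjMat M := by
  simp only [isAdj, IsAdjMat, Bool.and_eq_true, List.all_eq_true, decide_eq_true_eq,
    List.mem_range, Bool.not_eq_true']

theorem FM_iso_iff (M M' : Mat) :
    Nonempty (gr (FM M) ≃g gr (FM M')) ↔ Nonempty (gr M ≃g gr M') := by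
  obtain ⟨e1⟩ := FM_iso M
  obtain ⟨e2⟩ := FM_iso M'
  constructor
  · rintro ⟨φ⟩
    exact iso_of_GG_iso (e1.symm.trans (φ.trans e2))
  · rintro ⟨σ⟩
    obtain ⟨e3⟩ := GG_iso_of_iso σ
    exact ⟨e1.trans (e3.trans e2.symm)⟩

theorem FM_props (M : Mat) : IsAdjMat (FM M) ∧ Geodetic (gr (FM M)) ∧
    TwoConnected (gr (FM M)) ∧ ∀ u v, (gr (FM M)).dist u v ≤ 5 := by
  obtain ⟨e⟩ := FM_iso M
  exact ⟨FM_isAdjMat M, geodetic_of_iso e (GG_geodetic _).1,
    twoConnected_of_iso e (GG_twoConnected _),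
    dist_le_of_iso e (GG_geodetic _).1.1 (GG_geodetic _).2⟩

/-- Two geodetic graphs that are not isomorphic. -/
def bad : Mat × Mat := ([[false]], [[false, true], [true, false]])

theorem bad_adj1 : IsAdjMat bad.1 := (isAdj_iff _).1 (by decide)

theorem bad_adj2 : IsAdjMat bad.2 := (isAdj_iff _).1 (by decide)

theorem bad_geo1 : Geodetic (gr bad.1) := (isGeo_iff _).1 (by decide)

theorem bad_geo2 : Geodetic (gr bad.2) := (isGeo_iff _).1 (by decide)

theorem bad_iso : ¬ Nonempty (gr bad.1 ≃g gr bad.2) := by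
  rintro ⟨e⟩
  have := Fintype.card_congr e.toEquiv
  simp [bad] at this

/-- The reduction of graph isomorphism to isomorphism of geodetic graphs. -/
def red (p : Mat × Mat) : Mat × Mat :=
  if isAdj p.1 = true ∧ isAdj p.2 = true then (FM p.1, FM p.2) else bad

/-- The reduction of isomorphism of geodetic graphs to graph isomorphism. -/
def red' (p : Mat × Mat) : Mat × Mat :=
  if (isAdj p.1 = true ∧ isAdj p.2 = true) ∧ (isGeo p.1 = true ∧ isGeo p.2 = true) then p else bad

theorem red_spec (p : Mat × Mat) : IsAdjMat (red p).1 ∧ IsAdjMat (red p).2 ∧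
    Geodetic (gr (red p).1) ∧ Geodetic (gr (red p).2) ∧
    (GraphIso p ↔ Nonempty (gr (red p).1 ≃g gr (red p).2)) := by
  by_cases h : isAdj p.1 = true ∧ isAdj p.2 = true
  · have e : red p = (FM p.1, FM p.2) := if_pos h
    rw [e]
    rw [isAdj_iff, isAdj_iff] at h
    refine ⟨(FM_props _).1, (FM_props _).1, (FM_props _).2.1, (FM_props _).2.1, ?_⟩
    rw [FM_iso_iff]
    exact ⟨fun h' => h'.2.2, fun h' => ⟨h.1, h.2, h'⟩⟩
  · have e : red p = bad := if_neg h
    rw [e]
    rw [isAdj_iff, isAdj_iff] at h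
    exact ⟨bad_adj1, bad_adj2, bad_geo1, bad_geo2,
      fun h' => absurd ⟨h'.1, h'.2.1⟩ h, fun h' => absurd h' bad_iso⟩

theorem red_correct (p : Mat × Mat) : GraphIso p ↔ GeodeticIso (red p) := by
  obtain ⟨h1, h2, h3, h4, h5⟩ := red_spec p
  rw [h5]
  exact ⟨fun h => ⟨h1, h2, h3, h4, h⟩, fun h => h.2.2.2.2⟩

theorem red'_correct (p : Mat × Mat) : GeodeticIso p ↔ GraphIso (red' p) := by
  unfold red'
  split_ifs with h
  · rw [isAdj_iff, isAdj_iff, isGeo_iff, isGeo_iff] at h
    exact ⟨fun h' => ⟨h'.1, h'.2.1, h'.2.2.2.2⟩, fun h' => ⟨h'.1, h'.2.1, h.2.1, h.2.2, h'.2.2⟩⟩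
  · rw [isAdj_iff, isAdj_iff, isGeo_iff, isGeo_iff] at h
    exact ⟨fun h' => absurd ⟨⟨h'.1, h'.2.1⟩, h'.2.2.1, h'.2.2.2.1⟩ h,
      fun h' => absurd h'.2.2 bad_iso⟩

end Pool.Agent.H910R3.Geo

namespace Pool.Agent.NPC.H910R3

open Pool.Agent.H910R3.Geo SimpleGraph

theorem poly_isAdj {α : Type} [TEnc α] {M : α → Mat} (hM : Poly M) :
    Poly (fun a => isAdj (M a)) := by
  have h1 : Poly (fun p : α × List Bool => (M p.1).length) := poly_len (hM.comp (Poly.fst Poly.id))
  have h2 : Poly (fun p : α × ℕ => M p.1) := hM.comp (Poly.fst Poly.id)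
  have h3 : Poly (fun p : (α × ℕ) × ℕ => M p.1.1) := hM.comp (Poly.fst (Poly.fst Poly.id))
  have g1 : Poly (fun p : (α × ℕ) × ℕ => p.1.2) := Poly.snd (Poly.fst Poly.id)
  have g2 : Poly (fun p : (α × ℕ) × ℕ => p.2) := Poly.snd Poly.id
  refine Poly.and (Poly.all (l := fun a => M a) (p := fun a r => decide (r.length = (M a).length))
    hM (Poly.decide_eq (Poly.length (Poly.snd Poly.id)) h1)) ?_
  refine Poly.all (l := fun a => List.range (M a).length) (p := fun a i =>
    !(ent (M a) i i) && (List.range (M a).length).all fun j =>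
      decide (ent (M a) i j = ent (M a) j i)) (poly_range hM) (Poly.and (Poly.not
        (poly_ent h2 (Poly.snd Poly.id) (Poly.snd Poly.id))) ?_)
  exact Poly.all (l := fun p : α × ℕ => List.range (M p.1).length) (p := fun p j =>
      decide (ent (M p.1) p.2 j = ent (M p.1) j p.2)) (poly_range h2)
        (Poly.decide_eq (poly_ent h3 g1 g2) (poly_ent h3 g2 g1))

theorem poly_red : Poly red := by
  have h1 : Poly (fun p : Mat × Mat => p.1) := Poly.fst Poly.id
  have h2 : Poly (fun p : Mat × Mat => p.2) := Poly.snd Poly.id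
  exact Poly.ite (p := fun p : Mat × Mat => isAdj p.1 = true ∧ isAdj p.2 = true)
    (Poly.decide_and (Poly.decide_bool (poly_isAdj h1)) (Poly.decide_bool (poly_isAdj h2)))
    (Poly.pair (poly_FM.comp h1) (poly_FM.comp h2)) (Poly.const bad)

theorem poly_red' : Poly red' := by
  have h1 : Poly (fun p : Mat × Mat => p.1) := Poly.fst Poly.id
  have h2 : Poly (fun p : Mat × Mat => p.2) := Poly.snd Poly.id
  exact Poly.ite (p := fun p : Mat × Mat => (isAdj p.1 = true ∧ isAdj p.2 = true) ∧
      (isGeo p.1 = true ∧ isGeo p.2 = true))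
    (Poly.decide_and
      (Poly.decide_and (Poly.decide_bool (poly_isAdj h1)) (Poly.decide_bool (poly_isAdj h2)))
      (Poly.decide_and (Poly.decide_bool (poly_isGeo.comp h1))
        (Poly.decide_bool (poly_isGeo.comp h2))))
    Poly.id (Poly.const bad)

theorem reduces1 : Reduces (lang GraphIso) (lang GeodeticIso) :=
  reduces_lang poly_red red_correct

theorem reduces2 : Reduces (lang GeodeticIso) (lang GraphIso) :=
  reduces_lang poly_red' red'_correct

/-- There is a polynomial-time algorithm that decides, for any two geodetic graphs given by their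
adjacency matrices, whether they are isomorphic. -/
def GeodeticAlgorithm : Prop :=
  ∃ A : List Bool → List Bool, PolyTime A ∧ ∀ M M' : Mat, IsAdjMat M → IsAdjMat M' →
    Geodetic (gr M) → Geodetic (gr M') →
      (A (bits (M, M')) = [true] ↔ Nonempty (gr M ≃g gr M'))

theorem algorithm_iff : GeodeticAlgorithm ↔ InP (lang GraphIso) := by
  constructor
  · rintro ⟨A, hA, hA'⟩
    have hg : Poly (fun x : List Bool => match unbits (Mat × Mat) x with
        | none => bad
        | some p => red p) :=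
      (Poly.optCases (h := fun _ p => red p) poly_unbits (Poly.const bad)
        (poly_red.comp (Poly.snd Poly.id))).congr fun x => by cases unbits (Mat × Mat) x <;> rfl
    refine ⟨_, H642R2.TMSim.polyTime_comp hA (polyTime_bits hg), fun x => ?_⟩
    rw [mem_lang_iff]
    cases hx : unbits (Mat × Mat) x with
    | none =>
      have h1 := hA' bad.1 bad.2 bad_adj1 bad_adj2 bad_geo1 bad_geo2
      simp only [reduceCtorEq, false_and, exists_false, false_iff]
      intro h2
      exact bad_iso (h1.1 h2)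
    | some p =>
      obtain ⟨h1, h2, h3, h4, h5⟩ := red_spec p
      have h6 := hA' _ _ h1 h2 h3 h4
      simp only [Option.some.injEq, exists_eq_left']
      rw [h5, ← h6]
  · intro h
    obtain ⟨V, hV, hV'⟩ := InPP.exists_test h
    refine ⟨V, hV, fun M M' h1 h2 _ _ => ?_⟩
    rw [← hV' (M, M')]
    exact ⟨fun h => h.2.2, fun h => ⟨h1, h2, h⟩⟩

end Pool.Agent.NPC.H910R3
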