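import Pool.Agent.H910R3.Geo.Code

/-!
# The adjacency matrix of the geodetic graph is computable in polynomial time
-/

set_option autoImplicit false

namespace Pool.Agent.NPC.H910R3

open Pool.Agent.H910R3.Geo

variable {α : Type} [TEnc α]

theorem poly_dd {X : Type} [TEnc X] [DecidableEq X] {l : α → List X} (hl : Poly l) :
    Poly (fun a => dd (l a)) := by
  obtain ⟨r, hr⟩ := hl.sz_le
  refine (Poly.foldl (l := fun a => (l a).reverse) (s := fun _ => ([] : List X))
    (F := fun _ s b => if b ∈ s then s else b :: s) (Poly.reverse hl) (Poly.const _) ?_ r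
    ?_).congr ?_
  · exact Poly.ite (p := fun p : α × List X × X => p.2.2 ∈ p.2.1)
      (Poly.decide_mem (Poly.snd (Poly.snd Poly.id)) (Poly.fst (Poly.snd Poly.id)))
      (Poly.fst (Poly.snd Poly.id))
      (Poly.cons (Poly.snd (Poly.snd Poly.id)) (Poly.fst (Poly.snd Poly.id)))
  · intro a k hk
    have key : ∀ (m s : List X), sz (m.foldl (fun s b => if b ∈ s then s else b :: s) s) + 1 ≤
        sz m + sz s := by
      intro m
      induction m with
      | nil => intro s; simp
      | cons b m ih =>
        intro s
        rw [List.foldl_cons]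
        have := ih (if b ∈ s then s else b :: s)
        split_ifs at this ⊢ <;> simp at this ⊢ <;> omega
    have h1 := key ((l a).reverse.take k) []
    have h2 := Poly.sz_take_le (l a).reverse k
    have h3 := sz_reverse (l a)
    have h4 := hr a
    simp only [sz_list_nil] at h1
    omega
  · intro a
    rw [List.foldl_reverse]
    rfl

theorem poly_mem {f : α → PC'} {l : α → List PC'} (hf : Poly f) (hl : Poly l) :
    Poly (fun a => decide (f a ∈ l a)) :=
  (Poly.decide_mem hf hl).congr fun a => by simp only [decide_eq_decide]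

theorem poly_ent {M : α → Mat} {i j : α → ℕ} (hM : Poly M) (hi : Poly i) (hj : Poly j) :
    Poly (fun a => ent (M a) (i a) (j a)) :=
  Poly.getD (Poly.getD hM hi (Poly.const [])) hj (Poly.const false)

theorem poly_adjB {M : α → Mat} {i j : α → ℕ} (hM : Poly M) (hi : Poly i) (hj : Poly j) :
    Poly (fun a => adjB (M a) (i a) (j a)) :=
  Poly.and (Poly.not (Poly.decide_eq hi hj)) (Poly.and (poly_ent hM hi hj) (poly_ent hM hj hi))

theorem poly_len {M : α → Mat} (hM : Poly M) : Poly (fun a => (M a).length) := Poly.length hM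

theorem poly_range {M : α → Mat} (hM : Poly M) : Poly (fun a => List.range (M a).length) :=
  (UPoly.length hM).range

theorem poly_range4 {M : α → Mat} (hM : Poly M) : Poly (fun a => List.range ((M a).length + 4)) :=
  (UPoly.add (UPoly.length hM) (UPoly.const 4)).range

theorem poly_row {M : α → Mat} {i : α → ℕ} (hM : Poly M) (hi : Poly i) :
    Poly (fun a => (List.range ((M a).length + 4)).map fun j => (i a, j)) :=
  Poly.map (F := fun a j => (i a, j)) (poly_range4 hM)
    (Poly.pair (hi.comp (Poly.fst Poly.id)) (Poly.snd Poly.id))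

theorem poly_ptList {M : α → Mat} (hM : Poly M) : Poly (fun a => ptList (M a)) := by
  refine Poly.append ?_ ?_
  · exact Poly.flatMap (F := fun a i => (List.range ((M a).length + 4)).map fun j => (i, j))
      (poly_range hM) (poly_row (M := fun p : α × ℕ => M p.1) (i := fun p => p.2)
        (hM.comp (Poly.fst Poly.id)) (Poly.snd Poly.id))
  · exact Poly.cons (Poly.pair (poly_len hM) (Poly.const 0))
      (Poly.cons (Poly.pair (poly_len hM) (Poly.const 1))
        (Poly.cons (Poly.pair (poly_len hM) (Poly.const 2)) (Poly.const [])))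

theorem poly_rowList {M : α → Mat} (hM : Poly M) : Poly (fun a => rowList (M a)) :=
  Poly.map (F := fun a i => (List.range ((M a).length + 4)).map fun j => (i, j))
    (poly_range hM) (poly_row (M := fun p : α × ℕ => M p.1) (i := fun p => p.2)
      (hM.comp (Poly.fst Poly.id)) (Poly.snd Poly.id))

theorem poly_tList {M : α → Mat} (hM : Poly M) : Poly (fun a => tList (M a)) := by
  have hM1 : Poly (fun p : α × ℕ => M p.1) := hM.comp (Poly.fst Poly.id)
  have hM2 : Poly (fun p : (α × ℕ) × ℕ => M p.1.1) := hM.comp (Poly.fst (Poly.fst Poly.id))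
  refine Poly.flatMap (F := fun a i => ((List.range (M a).length).filter fun j =>
    adjB (M a) i j).map fun j => [((M a).length, 0), (i, j), (j, i)]) (poly_range hM) ?_
  refine Poly.map (l := fun p : α × ℕ => (List.range (M p.1).length).filter fun j =>
    adjB (M p.1) p.2 j) (F := fun p j => [((M p.1).length, 0), (p.2, j), (j, p.2)]) ?_ ?_
  · exact Poly.filter (p := fun p j => adjB (M p.1) p.2 j) (poly_range hM1)
      (poly_adjB hM2 (Poly.snd (Poly.fst Poly.id)) (Poly.snd Poly.id))
  · exact Poly.cons (Poly.pair (poly_len hM2) (Poly.const 0))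
      (Poly.cons (Poly.pair (Poly.snd (Poly.fst Poly.id)) (Poly.snd Poly.id))
        (Poly.cons (Poly.pair (Poly.snd Poly.id) (Poly.snd (Poly.fst Poly.id))) (Poly.const [])))

theorem poly_bigList {M : α → Mat} (hM : Poly M) : Poly (fun a => bigList (M a)) :=
  Poly.append (poly_rowList hM) (poly_tList hM)

theorem poly_pairList {M : α → Mat} (hM : Poly M) : Poly (fun a => pairList (M a)) := by
  have hM1 : Poly (fun p : α × PC' => M p.1) := hM.comp (Poly.fst Poly.id)
  have hM2 : Poly (fun p : (α × PC') × PC' => M p.1.1) := hM.comp (Poly.fst (Poly.fst Poly.id))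
  refine Poly.flatMap (F := fun a p => ((ptList (M a)).filter fun q => !(decide (p = q)) &&
    !((bigList (M a)).any fun B => decide (p ∈ B) && decide (q ∈ B))).map fun q => [p, q])
    (poly_ptList hM) ?_
  refine Poly.map (l := fun p : α × PC' => (ptList (M p.1)).filter fun q =>
    !(decide (p.2 = q)) && !((bigList (M p.1)).any fun B => decide (p.2 ∈ B) && decide (q ∈ B)))
    (F := fun p q => [p.2, q]) ?_ ?_
  · refine Poly.filter (p := fun p q => !(decide (p.2 = q)) &&
      !((bigList (M p.1)).any fun B => decide (p.2 ∈ B) && decide (q ∈ B))) (poly_ptList hM1) ?_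
    refine Poly.and (Poly.not (Poly.decide_eq (Poly.snd (Poly.fst Poly.id)) (Poly.snd Poly.id)))
      (Poly.not ?_)
    refine Poly.any (l := fun x : (α × PC') × PC' => bigList (M x.1.1))
      (p := fun x B => decide (x.1.2 ∈ B) && decide (x.2 ∈ B)) (poly_bigList hM2) ?_
    exact Poly.and
      (poly_mem (Poly.snd (Poly.fst (Poly.fst Poly.id))) (Poly.snd Poly.id))
      (poly_mem (Poly.snd (Poly.fst Poly.id)) (Poly.snd Poly.id))
  · exact Poly.cons (Poly.snd (Poly.fst Poly.id)) (Poly.cons (Poly.snd Poly.id) (Poly.const []))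

theorem poly_lnList {M : α → Mat} (hM : Poly M) : Poly (fun a => lnList (M a)) := by
  refine Poly.map (l := fun a => bigList (M a) ++ pairList (M a)) (F := fun a l => norm (M a) l)
    (Poly.append (poly_bigList hM) (poly_pairList hM)) ?_
  exact Poly.filter (l := fun p : α × List PC' => ptList (M p.1))
    (p := fun p x => decide (x ∈ p.2)) (poly_ptList (hM.comp (Poly.fst Poly.id)))
    (poly_mem (Poly.snd Poly.id) (Poly.snd (Poly.fst Poly.id)))

theorem poly_vxList {M : α → Mat} (hM : Poly M) : Poly (fun a => vxList (M a)) := by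
  refine poly_dd (Poly.append ?_ ?_)
  · exact Poly.map (F := fun _ p => (p, [])) (poly_ptList hM)
      (Poly.pair (Poly.snd Poly.id) (Poly.const []))
  · refine Poly.flatMap (F := fun _ l => l.map fun p => (p, l)) (poly_lnList hM) ?_
    exact Poly.map (l := fun p : α × List PC' => p.2) (F := fun p x => (x, p.2))
      (Poly.snd Poly.id) (Poly.pair (Poly.snd Poly.id) (Poly.snd (Poly.fst Poly.id)))

theorem poly_adjX {x y : α → VC} (hx : Poly x) (hy : Poly y) :
    Poly (fun a => adjX (x a) (y a)) := by
  have e1 : Poly (fun a => decide ((x a).1 = (y a).1)) :=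
    Poly.decide_eq (Poly.fst hx) (Poly.fst hy)
  have e2 : Poly (fun a => decide ((x a).2 = (y a).2)) :=
    Poly.decide_eq (Poly.snd hx) (Poly.snd hy)
  have e3 : Poly (fun a => decide ((x a).2 = [])) := Poly.decide_eq (Poly.snd hx) (Poly.const [])
  have e4 : Poly (fun a => decide ((y a).2 = [])) := Poly.decide_eq (Poly.snd hy) (Poly.const [])
  exact Poly.or (Poly.and (Poly.not e1) (Poly.and e2 (Poly.not e3)))
    (Poly.and e1 (Poly.or (Poly.and e3 (Poly.not e4)) (Poly.and e4 (Poly.not e3))))

theorem poly_FM : Poly FM := by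
  have h1 : Poly (fun M : Mat => vxList M) := poly_vxList Poly.id
  refine Poly.map (F := fun M x => (vxList M).map fun y => adjX x y) h1 ?_
  refine Poly.map (l := fun p : Mat × VC => vxList p.1) (F := fun p y => adjX p.2 y)
    (h1.comp (Poly.fst Poly.id)) ?_
  exact poly_adjX (Poly.snd (Poly.fst Poly.id)) (Poly.snd Poly.id)

end Pool.Agent.NPC.H910R3
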