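import Pool.Agent.H910R3.Geo.PolyF

/-!
# Geodetic graphs are recognisable in polynomial time
-/

set_option autoImplicit false

namespace Pool.Agent.H910R3.Geo

open SimpleGraph

theorem geodetic_iff {V : Type} {G : SimpleGraph V} (hG : G.Connected) : Geodetic G ↔
    ∀ v u, u ≠ v → ∃! w, G.Adj u w ∧ G.dist v w + 1 = G.dist v u := by
  constructor
  · rintro ⟨_, h⟩ v u huv
    obtain ⟨⟨p, hpp⟩, hp, huniq⟩ := h u v
    simp only at hp
    cases p with
    | nil => exact absurd rfl huv
    | @cons _ w _ hw q =>
      simp only [Walk.length_cons] at hp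
      have h1 := hG.dist_triangle (u := u) (v := w) (w := v)
      have h2 : G.dist u w = 1 := SimpleGraph.dist_eq_one_iff_adj.2 hw
      have h3 := SimpleGraph.dist_le q
      refine ⟨w, ⟨hw, ?_⟩, ?_⟩
      · rw [G.dist_comm (u := v) (v := w), G.dist_comm (u := v) (v := u)]
        omega
      · rintro w' ⟨hw', hd⟩
        obtain ⟨q', hq'⟩ := (hG.preconnected w' v).exists_walk_length_eq_dist
        have h4 : (Walk.cons hw' q').length = G.dist u v := by
          rw [G.dist_comm (u := v) (v := w'), G.dist_comm (u := v) (v := u)] at hd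
          simp only [Walk.length_cons]
          omega
        have h5 := huniq ⟨Walk.cons hw' q', Walk.isPath_of_length_eq_dist _ h4⟩ h4
        have h6 := congrArg (fun p : G.Path u v => (p : G.Walk u v).getVert 1) h5
        simpa using h6
  · intro h
    have : Nonempty V := hG.nonempty
    refine (geodetic_of_potential (G := G) (fun v u => G.dist v u) (fun v => by simp) ?_ h).1
    intro v a b hab
    have h1 := hG.dist_triangle (u := v) (v := b) (w := a)
    have h2 : G.dist b a = 1 := SimpleGraph.dist_eq_one_iff_adj.2 hab.symm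
    omega

variable (M : Mat)

/-- One step of breadth first search. -/
def stepR (s : List ℕ) : List ℕ :=
  (List.range M.length).filter fun v => decide (v ∈ s) || s.any fun w => adjB M v w

/-- The vertices at distance at most `k` of `u`, for `k` at most the number of vertices. -/
def RR (u k : ℕ) : List ℕ := (stepR M)^[min k M.length] [u]

/-- The distance, or the number of vertices. -/
def dst (u v : ℕ) : ℕ := ((List.range M.length).filter fun k => !(decide (v ∈ RR M u k))).length

/-- The test whether a graph is geodetic. -/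
def isGeo : Bool :=
  !(decide (M.length = 0)) && (List.range M.length).all fun u => (List.range M.length).all fun v =>
    decide (u = v) || (decide (dst M u v < M.length) &&
      decide (((List.range M.length).filter fun w =>
        adjB M v w && decide (dst M u w + 1 = dst M u v)).length = 1))

theorem mem_iter (u v : Fin M.length) (k : ℕ) :
    (v : ℕ) ∈ (stepR M)^[k] [(u : ℕ)] ↔ ∃ p : (gr M).Walk u v, p.length ≤ k := by
  have hlt : ∀ k, ∀ w ∈ (stepR M)^[k] [(u : ℕ)], w < M.length := by
    intro k
    cases k with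
    | zero => intro w hw; simp at hw; rw [hw]; exact u.2
    | succ k =>
      intro w hw
      rw [Function.iterate_succ_apply', stepR, List.mem_filter, List.mem_range] at hw
      exact hw.1
  induction k generalizing v with
  | zero =>
    simp only [Function.iterate_zero, id_eq, List.mem_singleton, Nat.le_zero]
    constructor
    · intro h
      have : v = u := Fin.ext h
      subst this
      exact ⟨Walk.nil, rfl⟩
    · rintro ⟨p, hp⟩
      rw [Walk.eq_of_length_eq_zero hp]
  | succ k ih =>
    rw [Function.iterate_succ_apply', stepR, List.mem_filter, List.mem_range]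
    simp only [v.2, true_and, Bool.or_eq_true, decide_eq_true_eq, List.any_eq_true]
    constructor
    · rintro (h | ⟨w, hw, h⟩)
      · obtain ⟨p, hp⟩ := (ih v).1 h
        exact ⟨p, by omega⟩
      · have hw' := hlt k w hw
        obtain ⟨p, hp⟩ := (ih ⟨w, hw'⟩).1 hw
        have hadj : (gr M).Adj v ⟨w, hw'⟩ := (adjB_iff M v ⟨w, hw'⟩).1 h
        exact ⟨p.concat hadj.symm, by rw [Walk.length_concat]; omega⟩
    · rintro ⟨p, hp⟩
      by_cases h : p.length ≤ k
      · exact Or.inl ((ih v).2 ⟨p, h⟩)
      · right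
        have hne : ¬ p.Nil := by
          intro hn
          rw [← Walk.length_eq_zero_iff] at hn
          omega
        refine ⟨p.penultimate, (ih _).2 ⟨p.dropLast, ?_⟩, ?_⟩
        · have := congrArg Walk.length (p.concat_dropLast (p.adj_penultimate hne))
          rw [Walk.length_concat] at this
          omega
        · exact (adjB_iff M v _).2 (p.adj_penultimate hne).symm

theorem count_lt (n d : ℕ) (h : d ≤ n) (P : ℕ → Bool) (hP : ∀ k < n, (P k = true ↔ k < d)) :
    ((List.range n).filter P).length = d := by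
  have h1 : (List.range n).filter P = (List.range n).filter (fun k => decide (k < d)) := by
    apply List.filter_congr
    intro k hk
    rw [List.mem_range] at hk
    rw [Bool.eq_iff_iff, hP k hk, decide_eq_true_eq]
  rw [h1]
  obtain ⟨e, rfl⟩ := Nat.exists_eq_add_of_le h
  rw [List.range_add, List.filter_append]
  have h2 : (List.range d).filter (fun k => decide (k < d)) = List.range d := by
    rw [List.filter_eq_self]
    intro k hk
    simpa using hk
  have h3 : ((List.range e).map (fun x => d + x)).filter (fun k => decide (k < d)) = [] := by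
    rw [List.filter_eq_nil_iff]
    intro k hk
    simp at hk ⊢
    omega
  rw [h2, h3, List.append_nil, List.length_range]

theorem dst_reach {u v : Fin M.length} (h : (gr M).Reachable u v) :
    dst M u v = (gr M).dist u v ∧ (gr M).dist u v < M.length := by
  obtain ⟨p, hpp, hp⟩ := h.exists_path_of_dist
  have h1 : (gr M).dist u v < M.length := by
    have := hpp.length_lt
    rw [Fintype.card_fin] at this
    omega
  refine ⟨count_lt _ _ h1.le _ fun k hk => ?_, h1⟩
  rw [Bool.not_eq_true', decide_eq_false_iff_not, RR, min_eq_left hk.le, mem_iter]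
  constructor
  · intro h2
    by_contra h3
    exact h2 ⟨p, by omega⟩
  · rintro h2 ⟨q, hq⟩
    have := SimpleGraph.dist_le q
    omega

theorem dst_not_reach {u v : Fin M.length} (h : ¬ (gr M).Reachable u v) :
    dst M u v = M.length := by
  refine count_lt _ _ le_rfl _ fun k hk => ?_
  rw [Bool.not_eq_true', decide_eq_false_iff_not, RR, min_eq_left hk.le, mem_iter]
  constructor
  · exact fun _ => hk
  · rintro _ ⟨q, _⟩
    exact h ⟨q⟩

theorem length_filter_one (P : ℕ → Bool) (n : ℕ) :
    ((List.range n).filter P).length = 1 ↔ ∃! w : Fin n, P w = true := by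
  rw [List.length_eq_one_iff]
  constructor
  · rintro ⟨a, ha⟩
    have h1 : a ∈ (List.range n).filter P := by rw [ha]; simp
    rw [List.mem_filter, List.mem_range] at h1
    refine ⟨⟨a, h1.1⟩, h1.2, fun w hw => ?_⟩
    have h2 : (w : ℕ) ∈ (List.range n).filter P := by
      rw [List.mem_filter, List.mem_range]
      exact ⟨w.2, hw⟩
    rw [ha, List.mem_singleton] at h2
    exact Fin.ext h2
  · rintro ⟨w, hw, hu⟩
    refine ⟨w, ?_⟩
    have hnd : ((List.range n).filter P).Nodup := List.nodup_range.filter _
    have hall : ∀ x ∈ (List.range n).filter P, x = (w : ℕ) := by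
      intro x hx
      rw [List.mem_filter, List.mem_range] at hx
      exact congrArg Fin.val (hu ⟨x, hx.1⟩ hx.2)
    have hmem : (w : ℕ) ∈ (List.range n).filter P := by
      rw [List.mem_filter, List.mem_range]
      exact ⟨w.2, hw⟩
    generalize (List.range n).filter P = l at hnd hall hmem
    match l, hnd, hall, hmem with
    | [], _, _, hmem => simp at hmem
    | [a], _, hall, _ => rw [hall a (by simp)]
    | a :: b :: l, hnd, hall, _ =>
      exfalso
      have e1 := hall a (by simp)
      have e2 := hall b (by simp)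
      rw [e1, e2] at hnd
      simp at hnd

theorem isGeo_iff : isGeo M = true ↔ Geodetic (gr M) := by
  simp only [isGeo, Bool.and_eq_true, Bool.not_eq_true', decide_eq_false_iff_not, List.all_eq_true,
    List.mem_range, Bool.or_eq_true, decide_eq_true_eq, length_filter_one]
  constructor
  · rintro ⟨h0, h⟩
    have hc : (gr M).Connected := by
      have : Nonempty (Fin M.length) := ⟨⟨0, Nat.pos_of_ne_zero h0⟩⟩
      refine ⟨fun u v => ?_⟩
      by_contra hr
      rcases h u u.2 v v.2 with h1 | ⟨h1, _⟩
      · exact hr (by rw [Fin.ext h1])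
      · rw [dst_not_reach M hr] at h1
        omega
    rw [geodetic_iff hc]
    intro v u huv
    rcases h v v.2 u u.2 with h1 | ⟨_, w, ⟨hw1, hw2⟩, hw3⟩
    · exact absurd (Fin.ext h1).symm huv
    · rw [(dst_reach M (hc.preconnected _ _)).1, (dst_reach M (hc.preconnected _ _)).1] at hw2
      refine ⟨w, ⟨(adjB_iff M u w).1 hw1, hw2⟩, fun w' hw' => ?_⟩
      apply hw3
      rw [(dst_reach M (hc.preconnected _ _)).1, (dst_reach M (hc.preconnected _ _)).1]
      exact ⟨(adjB_iff M u w').2 hw'.1, hw'.2⟩
  · intro h
    have hc := h.1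
    rw [geodetic_iff hc] at h
    refine ⟨?_, ?_⟩
    · intro h0
      obtain ⟨x⟩ := hc.nonempty
      have := x.2
      omega
    · intro v hv u hu
      by_cases huv : v = u
      · exact Or.inl huv
      right
      obtain ⟨w, ⟨hw1, hw2⟩, hw3⟩ := h ⟨v, hv⟩ ⟨u, hu⟩ (fun e => huv (Fin.ext_iff.1 e).symm)
      have key : ∀ a b : Fin M.length, dst M a b = (gr M).dist a b := fun a b =>
        (dst_reach M (hc.preconnected _ _)).1
      have k1 := key ⟨v, hv⟩ ⟨u, hu⟩
      have k2 := (dst_reach M (hc.preconnected ⟨v, hv⟩ ⟨u, hu⟩)).2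
      simp only at k1
      refine ⟨by rw [k1]; exact k2, w, ⟨(adjB_iff M ⟨u, hu⟩ w).2 hw1, ?_⟩, fun w' hw' => ?_⟩
      · have k3 := key ⟨v, hv⟩ w
        simp only at k3
        rw [k1, k3, hw2]
      · apply hw3
        have k3 := key ⟨v, hv⟩ w'
        simp only at k3
        refine ⟨(adjB_iff M ⟨u, hu⟩ w').1 hw'.1, ?_⟩
        rw [← k1, ← k3, hw'.2]

end Pool.Agent.H910R3.Geo

namespace Pool.Agent.NPC.H910R3

open Pool.Agent.H910R3.Geo

theorem poly_RR : Poly (fun p : Mat × ℕ × ℕ => RR p.1 p.2.1 p.2.2) := by
  have hk : UPoly (fun p : Mat × ℕ × ℕ => min p.2.2 p.1.length) :=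
    UPoly.of_le (Poly.min (Poly.snd (Poly.snd Poly.id)) (Poly.length (Poly.fst Poly.id)))
      (UPoly.length (Poly.fst Poly.id)) (fun p => min_le_right _ _)
  have hstep : Poly (fun p : (Mat × ℕ × ℕ) × List ℕ => stepR p.1.1 p.2) := by
    refine Poly.filter (l := fun p : (Mat × ℕ × ℕ) × List ℕ => List.range p.1.1.length)
      (p := fun p v => decide (v ∈ p.2) || p.2.any fun w => adjB p.1.1 v w)
      (poly_range (Poly.fst (Poly.fst Poly.id))) (Poly.or ?_ ?_)
    · exact Poly.decide_mem (Poly.snd Poly.id) (Poly.snd (Poly.fst Poly.id))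
    · refine Poly.any (l := fun x : ((Mat × ℕ × ℕ) × List ℕ) × ℕ => x.1.2)
        (p := fun x w => adjB x.1.1.1 x.2 w) (Poly.snd (Poly.fst Poly.id)) ?_
      exact poly_adjB (Poly.fst (Poly.fst (Poly.fst (Poly.fst Poly.id))))
        (Poly.snd (Poly.fst Poly.id)) (Poly.snd Poly.id)
  have hrg : Poly (fun p : Mat × ℕ × ℕ => List.range p.1.length) := poly_range (Poly.fst Poly.id)
  obtain ⟨q, hq⟩ := hrg.sz_le
  have hflt : ∀ (n : ℕ) (P : ℕ → Bool), sz ((List.range n).filter P) ≤ sz (List.range n) := by
    intro n P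
    generalize List.range n = l
    induction l with
    | nil => simp
    | cons a l ih =>
      rw [List.filter_cons]
      split_ifs <;> simp <;> omega
  refine (Poly.iterLen (l := fun p : Mat × ℕ × ℕ => List.replicate (min p.2.2 p.1.length) ())
    (s := fun p => [p.2.1]) (F := fun p s => stepR p.1 s) hk
    (Poly.cons (Poly.fst (Poly.snd Poly.id)) (Poly.const [])) hstep (q + Polynomial.X + 2)
    ?_).congr ?_
  · rintro ⟨M, u, k⟩ i hi
    simp only [Polynomial.eval_add, Polynomial.eval_X, Polynomial.eval_ofNat]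
    cases i with
    | zero =>
      simp only [Function.iterate_zero, id_eq, sz_list_cons, sz_list_nil, sz_pair]
      omega
    | succ i =>
      rw [Function.iterate_succ_apply']
      have h1 := hflt M.length (fun v => decide (v ∈ (fun s => stepR M s)^[i] [u]) ||
        ((fun s => stepR M s)^[i] [u]).any fun w => adjB M v w)
      have h2 := hq (M, u, k)
      simp only at h2
      have h3 : stepR M ((fun s => stepR M s)^[i] [u]) = (List.range M.length).filter
        (fun v => decide (v ∈ (fun s => stepR M s)^[i] [u]) ||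
        ((fun s => stepR M s)^[i] [u]).any fun w => adjB M v w) := rfl
      simp only [h3]
      omega
  · rintro ⟨M, u, k⟩
    simp only [List.length_replicate, RR]

theorem poly_decmem {α : Type} [TEnc α] {f : α → ℕ} {l : α → List ℕ} (hf : Poly f)
    (hl : Poly l) : Poly (fun a => !(decide (f a ∈ l a))) := Poly.not (Poly.decide_mem hf hl)

attribute [local irreducible] RR

theorem poly_RR' {α : Type} [TEnc α] {M : α → Mat} {u k : α → ℕ} (hM : Poly M) (hu : Poly u)
    (hk : Poly k) : Poly (fun a => RR (M a) (u a) (k a)) :=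
  poly_RR.comp (Poly.pair hM (Poly.pair hu hk))

theorem poly_dst0 {α : Type} [TEnc α] {M : α → Mat} {u v : α → ℕ} (hM : Poly M) (hu : Poly u)
    (hv : Poly v) : Poly (fun p : α × ℕ => !(decide (v p.1 ∈ RR (M p.1) (u p.1) p.2))) := by
  have a1 : Poly (fun p : α × ℕ => v p.1) := hv.comp (Poly.fst Poly.id)
  have a2 : Poly (fun p : α × ℕ => RR (M p.1) (u p.1) p.2) :=
    poly_RR' (hM.comp (Poly.fst Poly.id)) (hu.comp (Poly.fst Poly.id)) (Poly.snd Poly.id)
  exact Poly.not (Poly.decide_mem a1 a2)

theorem poly_dst {α : Type} [TEnc α] {M : α → Mat} {u v : α → ℕ} (hM : Poly M) (hu : Poly u)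
    (hv : Poly v) : Poly (fun a => dst (M a) (u a) (v a)) := by
  unfold dst
  exact Poly.length (Poly.filter (l := fun a => List.range (M a).length)
      (p := fun a k => !(decide (v a ∈ RR (M a) (u a) k))) (poly_range hM) (poly_dst0 hM hu hv))

theorem poly_isGeo : Poly isGeo := by
  have h1 : Poly (fun p : Mat × ℕ => p.1) := Poly.fst Poly.id
  have h2 : Poly (fun p : (Mat × ℕ) × ℕ => p.1.1) := Poly.fst (Poly.fst Poly.id)
  have h3 : Poly (fun p : ((Mat × ℕ) × ℕ) × ℕ => p.1.1.1) := Poly.fst (Poly.fst (Poly.fst Poly.id))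
  refine Poly.and (Poly.not (Poly.decide_eq (Poly.length Poly.id) (Poly.const 0))) ?_
  refine Poly.all (l := fun M : Mat => List.range M.length) (p := fun M u =>
    (List.range M.length).all fun v => decide (u = v) || (decide (dst M u v < M.length) &&
      decide (((List.range M.length).filter fun w =>
        adjB M v w && decide (dst M u w + 1 = dst M u v)).length = 1))) (poly_range Poly.id) ?_
  refine Poly.all (l := fun p : Mat × ℕ => List.range p.1.length) (p := fun p v =>
    decide (p.2 = v) || (decide (dst p.1 p.2 v < p.1.length) &&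
      decide (((List.range p.1.length).filter fun w =>
        adjB p.1 v w && decide (dst p.1 p.2 w + 1 = dst p.1 p.2 v)).length = 1)))
    (poly_range h1) ?_
  have g1 : Poly (fun p : (Mat × ℕ) × ℕ => p.1.2) := Poly.snd (Poly.fst Poly.id)
  have g2 : Poly (fun p : (Mat × ℕ) × ℕ => p.2) := Poly.snd Poly.id
  have e1 : Poly (fun p : (Mat × ℕ) × ℕ => dst p.1.1 p.1.2 p.2) := poly_dst h2 g1 g2
  refine Poly.or (Poly.decide_eq g1 g2)
    (Poly.and (Poly.decide_lt e1 (Poly.length h2)) (Poly.decide_eq (Poly.length ?_)
      (Poly.const 1)))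
  have f1 : Poly (fun p : ((Mat × ℕ) × ℕ) × ℕ => p.1.2) := Poly.snd (Poly.fst Poly.id)
  have f2 : Poly (fun p : ((Mat × ℕ) × ℕ) × ℕ => p.2) := Poly.snd Poly.id
  have f3 : Poly (fun p : ((Mat × ℕ) × ℕ) × ℕ => p.1.1.2) := Poly.snd (Poly.fst (Poly.fst Poly.id))
  refine Poly.filter (l := fun p : (Mat × ℕ) × ℕ => List.range p.1.1.length)
    (p := fun p w => adjB p.1.1 p.2 w && decide (dst p.1.1 p.1.2 w + 1 = dst p.1.1 p.1.2 p.2))
    (poly_range h2) (Poly.and (poly_adjB h3 f1 f2) ?_)
  have e2 : Poly (fun p : ((Mat × ℕ) × ℕ) × ℕ => dst p.1.1.1 p.1.1.2 p.1.2) :=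
    poly_dst h3 f3 f1
  have e3 : Poly (fun p : ((Mat × ℕ) × ℕ) × ℕ => dst p.1.1.1 p.1.1.2 p.2) :=
    poly_dst h3 f3 f2
  exact Poly.decide_eq (Poly.succ e3) e2

end Pool.Agent.NPC.H910R3
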