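import Pool.Agent.H910R3.Geo.Space

/-!
# The graph is determined by its geodetic graph
-/

set_option autoImplicit false

namespace Pool.Agent.H910R3.Geo

open SimpleGraph

section Inv

variable {X : Type} (Γ : SimpleGraph X)

/-- The vertex is in a triangle. -/
def Tri (a : X) : Prop := ∃ b c, Γ.Adj a b ∧ Γ.Adj a c ∧ Γ.Adj b c

/-- The vertex is in a complete graph on four vertices. -/
def KF (a : X) : Prop :=
  ∃ b c d, Γ.Adj a b ∧ Γ.Adj a c ∧ Γ.Adj a d ∧ Γ.Adj b c ∧ Γ.Adj b d ∧ Γ.Adj c d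

/-- Equal or adjacent. -/
def Same (a b : X) : Prop := a = b ∨ Γ.Adj a b

/-- The two flags are joined through the other flags of a line. -/
def Link (x y : X) : Prop := ∃ p a b c q, Γ.Adj x p ∧ ¬ Tri Γ p ∧ Γ.Adj p a ∧ Γ.Adj a b ∧
  Γ.Adj a c ∧ Γ.Adj b c ∧ Γ.Adj b q ∧ ¬ Tri Γ q ∧ Γ.Adj q y

/-- The rows of the two flags are joined through the flags of a line. -/
def RLink (x y : X) : Prop := ∃ x' y', Same Γ x x' ∧ Same Γ y y' ∧ KF Γ x' ∧ KF Γ y' ∧ Link Γ x' y'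

variable {Γ} {Y : Type} {Δ : SimpleGraph Y} (φ : Γ ≃g Δ)

include φ

theorem tri_iso (a : X) (h : Tri Γ a) : Tri Δ (φ a) := by
  obtain ⟨b, c, h1, h2, h3⟩ := h
  exact ⟨φ b, φ c, φ.map_adj_iff.2 h1, φ.map_adj_iff.2 h2, φ.map_adj_iff.2 h3⟩

theorem tri_iso_iff (a : X) : Tri Γ a ↔ Tri Δ (φ a) :=
  ⟨tri_iso φ a, fun h => by simpa using tri_iso φ.symm _ h⟩

theorem kf_iso (a : X) (h : KF Γ a) : KF Δ (φ a) := by
  obtain ⟨b, c, d, h1, h2, h3, h4, h5, h6⟩ := h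
  exact ⟨φ b, φ c, φ d, φ.map_adj_iff.2 h1, φ.map_adj_iff.2 h2, φ.map_adj_iff.2 h3,
    φ.map_adj_iff.2 h4, φ.map_adj_iff.2 h5, φ.map_adj_iff.2 h6⟩

theorem same_iso (a b : X) (h : Same Γ a b) : Same Δ (φ a) (φ b) := by
  rcases h with rfl | h
  · exact Or.inl rfl
  · exact Or.inr (φ.map_adj_iff.2 h)

theorem link_iso (x y : X) (h : Link Γ x y) : Link Δ (φ x) (φ y) := by
  obtain ⟨p, a, b, c, q, h1, h2, h3, h4, h5, h6, h7, h8, h9⟩ := h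
  exact ⟨φ p, φ a, φ b, φ c, φ q, φ.map_adj_iff.2 h1, fun e => h2 ((tri_iso_iff φ p).2 e),
    φ.map_adj_iff.2 h3, φ.map_adj_iff.2 h4, φ.map_adj_iff.2 h5, φ.map_adj_iff.2 h6,
    φ.map_adj_iff.2 h7, fun e => h8 ((tri_iso_iff φ q).2 e), φ.map_adj_iff.2 h9⟩

theorem rlink_iso (x y : X) (h : RLink Γ x y) : RLink Δ (φ x) (φ y) := by
  obtain ⟨x', y', h1, h2, h3, h4, h5⟩ := h
  exact ⟨φ x', φ y', same_iso φ _ _ h1, same_iso φ _ _ h2, kf_iso φ _ h3, kf_iso φ _ h4,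
    link_iso φ _ _ h5⟩

end Inv

variable {V : Type} (G : SimpleGraph V)

theorem not_tri_inl (p : Pt V) : ¬ Tri (GG G) (Sum.inl p) := by
  rintro ⟨b, c, h1, h2, h3⟩
  rcases b with b | ⟨⟨b, m⟩, hb⟩
  · exact h1
  rcases c with c | ⟨⟨c, k⟩, hc⟩
  · exact h2
  exact h3.1 ((show b = p from h1).trans (show c = p from h2).symm)

theorem tri_inr {a : Pt V ⊕ {x : Pt V × {S // Ln G S} // Inc G x.1 x.2}} (h : Tri (GG G) a) :
    ∃ x, a = Sum.inr x := by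
  rcases a with a | x
  · exact absurd h (not_tri_inl G a)
  · exact ⟨x, rfl⟩

theorem adj_same_line {x y : {x : Pt V × {S // Ln G S} // Inc G x.1 x.2}}
    (h : (GG G).Adj (Sum.inr x) (Sum.inr y)) : x.1.1 ≠ y.1.1 ∧ x.1.2 = y.1.2 := h

theorem same_same_line {x y : {x : Pt V × {S // Ln G S} // Inc G x.1 x.2}} :
    Same (GG G) (Sum.inr x) (Sum.inr y) ↔ x.1.2 = y.1.2 := by
  constructor
  · rintro (h | h)
    · rw [Sum.inr.inj h]
    · exact h.2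
  · intro h
    by_cases h' : x.1.1 = y.1.1
    · left
      congr 1
      exact Subtype.ext (Prod.ext h' h)
    · exact Or.inr ⟨h', h⟩

/-- The line of a flag in a complete graph on four vertices is a row. -/
theorem kf_row {x : {x : Pt V × {S // Ln G S} // Inc G x.1 x.2}} (h : KF (GG G) (Sum.inr x)) :
    ∃ i, x.1.2.1 = Row i := by
  obtain ⟨b, c, d, h1, h2, h3, h4, h5, h6⟩ := h
  obtain ⟨b, rfl⟩ := tri_inr G (a := b) ⟨c, d, h4, h5, h6⟩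
  obtain ⟨c, rfl⟩ := tri_inr G (a := c) ⟨_, d, h4.symm, h6, h5⟩
  obtain ⟨d, rfl⟩ := tri_inr G (a := d) ⟨_, _, h5.symm, h6.symm, h4⟩
  obtain ⟨⟨x, m⟩, hx⟩ := x
  obtain ⟨⟨b, m1⟩, hb⟩ := b
  obtain ⟨⟨c, m2⟩, hc⟩ := c
  obtain ⟨⟨d, m3⟩, hd⟩ := d
  obtain ⟨h1, e1⟩ := h1
  obtain ⟨h2, e2⟩ := h2
  obtain ⟨h3, e3⟩ := h3
  obtain ⟨h4, e4⟩ := h4
  obtain ⟨h5, e5⟩ := h5
  obtain ⟨h6, e6⟩ := h6
  simp only at *
  subst e1 e2 e3
  obtain ⟨S, hS⟩ := m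
  rcases hS with (⟨i, rfl⟩ | ⟨i, j, hij, rfl⟩) | ⟨p', q', hne, hno, rfl⟩
  · exact ⟨i, rfl⟩
  · exfalso
    simp only [Inc, mem_Tl] at hx hb hc hd
    grind
  · exfalso
    simp only [Inc, Set.mem_ofPred_eq] at hx hb hc hd
    grind

/-- The flags of a row. -/
def rowFlag (i : V) (c : V ⊕ Fin 4) : {x : Pt V × {S // Ln G S} // Inc G x.1 x.2} :=
  ⟨(Sum.inl (i, c), ⟨Row i, Or.inl (Or.inl ⟨i, rfl⟩)⟩), ⟨c, rfl⟩⟩

theorem rowFlag_adj {i : V} {c d : V ⊕ Fin 4} (h : c ≠ d) :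
    (GG G).Adj (Sum.inr (rowFlag G i c)) (Sum.inr (rowFlag G i d)) := by
  refine ⟨?_, rfl⟩
  intro e
  simp only [rowFlag, Sum.inl.injEq, Prod.mk.injEq, true_and] at e
  exact h e

theorem exists_fin_ne (c : V ⊕ Fin 4) (s : Finset (Fin 4)) (hs : s.card ≤ 2) :
    ∃ k : Fin 4, c ≠ Sum.inr k ∧ k ∉ s := by
  rcases c with c | k
  · obtain ⟨k, hk⟩ : ∃ k, k ∉ s := by
      by_contra hcon
      push Not at hcon
      have : s = Finset.univ := Finset.eq_univ_of_forall hcon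
      rw [this] at hs
      simp at hs
    exact ⟨k, by simp, hk⟩
  · obtain ⟨k', hk'⟩ : ∃ k', k' ∉ insert k s := by
      by_contra hcon
      push Not at hcon
      have h1 : insert k s = Finset.univ := Finset.eq_univ_of_forall hcon
      have h2 := Finset.card_insert_le k s
      rw [h1] at h2
      simp at h2
      omega
    rw [Finset.mem_insert, not_or] at hk'
    exact ⟨k', by simpa using fun e => hk'.1 e.symm, hk'.2⟩

theorem kf_rowFlag (i : V) (c : V ⊕ Fin 4) : KF (GG G) (Sum.inr (rowFlag G i c)) := by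
  obtain ⟨k, h1, _⟩ := exists_fin_ne c ∅ (by simp)
  obtain ⟨l, h2, h3⟩ := exists_fin_ne c {k} (by simp)
  obtain ⟨m, h4, h5⟩ := exists_fin_ne c {k, l} (Finset.card_le_two)
  simp only [Finset.mem_singleton, Finset.mem_insert, not_or] at h3 h5
  refine ⟨Sum.inr (rowFlag G i (Sum.inr k)), Sum.inr (rowFlag G i (Sum.inr l)),
    Sum.inr (rowFlag G i (Sum.inr m)), rowFlag_adj G h1, rowFlag_adj G h2, rowFlag_adj G h4,
    rowFlag_adj G ?_, rowFlag_adj G ?_, rowFlag_adj G ?_⟩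
  · simpa using fun e => h3 e.symm
  · simpa using fun e => h5.1 e.symm
  · simpa using fun e => h5.2 e.symm

theorem row_ne {i j : V} (h : (Row i : Set (Pt V)) = Row j) : i = j := by
  have : (Sum.inl (i, Sum.inr 0) : Pt V) ∈ Row j := h ▸ ⟨_, rfl⟩
  exact row_inj this

/-- A neighbour of a point or of a flag of a line with at least three points is a point if it is in
no triangle. -/
theorem nb_point {x : {x : Pt V × {S // Ln G S} // Inc G x.1 x.2}}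
    (hx : Tri (GG G) (Sum.inr x)) {p : Pt V ⊕ {x : Pt V × {S // Ln G S} // Inc G x.1 x.2}}
    (hp : (GG G).Adj (Sum.inr x) p) (hp' : ¬ Tri (GG G) p) : p = Sum.inl x.1.1 := by
  rcases p with p | y
  · exact congrArg Sum.inl (show x.1.1 = p from hp).symm
  · exfalso
    apply hp'
    obtain ⟨b, c, h1, h2, h3⟩ := hx
    obtain ⟨b, rfl⟩ := tri_inr G (a := b) ⟨_, c, h1.symm, h3, h2⟩
    obtain ⟨c, rfl⟩ := tri_inr G (a := c) ⟨_, _, h2.symm, h3.symm, h1⟩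
    obtain ⟨⟨x, m⟩, hx⟩ := x
    obtain ⟨⟨b, m1⟩, hb⟩ := b
    obtain ⟨⟨c, m2⟩, hc⟩ := c
    obtain ⟨⟨y, m3⟩, hy⟩ := y
    obtain ⟨h1, e1⟩ := h1
    obtain ⟨h2, e2⟩ := h2
    obtain ⟨h3, e3⟩ := h3
    obtain ⟨h4, e4⟩ := hp
    simp only at h1 e1 h2 e2 h3 e3 h4 e4
    subst e1 e2 e4
    by_cases hby : y = b
    · subst hby
      exact ⟨Sum.inr ⟨(x, m), hx⟩, Sum.inr ⟨(c, m), hc⟩, ⟨h4.symm, rfl⟩, ⟨h3, rfl⟩, ⟨h2, rfl⟩⟩
    · exact ⟨Sum.inr ⟨(x, m), hx⟩, Sum.inr ⟨(b, m), hb⟩, ⟨h4.symm, rfl⟩, ⟨hby, rfl⟩, ⟨h1, rfl⟩⟩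

theorem kf_tri {X : Type} {Γ : SimpleGraph X} {a : X} (h : KF Γ a) : Tri Γ a := by
  obtain ⟨b, c, d, h1, h2, h3, h4, h5, h6⟩ := h
  exact ⟨b, c, h1, h2, h4⟩

theorem link_adj {x y : {x : Pt V × {S // Ln G S} // Inc G x.1 x.2}} {i j : V}
    (hx : x.1.2.1 = Row i) (hy : y.1.2.1 = Row j) (hkx : Tri (GG G) (Sum.inr x))
    (hky : Tri (GG G) (Sum.inr y)) (h : Link (GG G) (Sum.inr x) (Sum.inr y)) :
    i = j ∨ G.Adj i j := by
  obtain ⟨p, a, b, c, q, h1, h2, h3, h4, h5, h6, h7, h8, h9⟩ := h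
  have hp := nb_point G hkx h1 h2
  have hq := nb_point G hky h9.symm h8
  subst hp hq
  obtain ⟨a, rfl⟩ := tri_inr G (a := a) ⟨_, _, h4, h5, h6⟩
  obtain ⟨b, rfl⟩ := tri_inr G (a := b) ⟨_, _, h4.symm, h6, h5⟩
  obtain ⟨c, rfl⟩ := tri_inr G (a := c) ⟨_, _, h5.symm, h6.symm, h4⟩
  have hxi : x.1.1 ∈ Row i := hx ▸ x.2
  have hyj : y.1.1 ∈ Row j := hy ▸ y.2
  obtain ⟨⟨a, m⟩, ha⟩ := a
  obtain ⟨⟨b, m1⟩, hb⟩ := b
  obtain ⟨⟨c, m2⟩, hc⟩ := c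
  change a = x.1.1 at h3
  change b = y.1.1 at h7
  obtain ⟨h4, e4⟩ := h4
  obtain ⟨h5, e5⟩ := h5
  obtain ⟨h6, e6⟩ := h6
  simp only at h4 e4 h5 e5 h6 e6
  subst e4 e5
  rw [← h3] at hxi
  rw [← h7] at hyj
  obtain ⟨S, hS⟩ := m
  rcases hS with (⟨k, rfl⟩ | ⟨k, l, hkl, rfl⟩) | ⟨p', q', hne, hno, rfl⟩
  · left
    obtain ⟨c1, e1⟩ := hxi
    obtain ⟨c2, e2⟩ := hyj
    have ha' : a ∈ Row k := ha
    have hb' : b ∈ Row k := hb
    rw [e1] at ha'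
    rw [e2] at hb'
    rw [row_inj ha', row_inj hb']
  · obtain ⟨c1, e1⟩ := hxi
    obtain ⟨c2, e2⟩ := hyj
    have ha' : a ∈ Tl k l := ha
    have hb' : b ∈ Tl k l := hb
    rw [mem_Tl] at ha' hb'
    subst e1 e2
    simp only [reduceCtorEq, Sum.inl.injEq, Prod.mk.injEq, false_or] at ha' hb'
    rcases ha' with ⟨rfl, rfl⟩ | ⟨rfl, rfl⟩ <;> rcases hb' with ⟨rfl, rfl⟩ | ⟨rfl, rfl⟩
    · exact Or.inl rfl
    · exact Or.inr hkl
    · exact Or.inr hkl.symm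
    · exact Or.inl rfl
  · exfalso
    simp only [Inc, Set.mem_ofPred_eq] at ha hb hc
    grind

theorem adj_link {i j : V} (h : G.Adj i j) :
    Link (GG G) (Sum.inr (rowFlag G i (Sum.inl j))) (Sum.inr (rowFlag G j (Sum.inl i))) := by
  have hT : Ln G (Tl i j) := Or.inl (Or.inr ⟨i, j, h, rfl⟩)
  have h1 : Inc G (Sum.inl (i, Sum.inl j)) ⟨Tl i j, hT⟩ := Or.inr (Or.inl rfl)
  have h2 : Inc G (Sum.inl (j, Sum.inl i)) ⟨Tl i j, hT⟩ := Or.inr (Or.inr rfl)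
  have h3 : Inc G (Sum.inr 0) ⟨Tl i j, hT⟩ := Or.inl rfl
  refine ⟨Sum.inl (Sum.inl (i, Sum.inl j)), Sum.inr ⟨(_, _), h1⟩, Sum.inr ⟨(_, _), h2⟩,
    Sum.inr ⟨(_, _), h3⟩, Sum.inl (Sum.inl (j, Sum.inl i)), rfl, not_tri_inl G _, rfl, ⟨?_, rfl⟩,
    ⟨?_, rfl⟩, ⟨?_, rfl⟩, rfl, not_tri_inl G _, rfl⟩
  · have := h.ne
    simp [this]
  · simp
  · simp

theorem rlink_iff {i j : V} (hij : i ≠ j) (c d : V ⊕ Fin 4) :
    RLink (GG G) (Sum.inr (rowFlag G i c)) (Sum.inr (rowFlag G j d)) ↔ G.Adj i j := by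
  constructor
  · rintro ⟨x', y', h1, h2, h3, h4, h5⟩
    obtain ⟨x', rfl⟩ := tri_inr G (kf_tri h3)
    obtain ⟨y', rfl⟩ := tri_inr G (kf_tri h4)
    rw [same_same_line] at h1 h2
    refine (link_adj G (i := i) (j := j) ?_ ?_ (kf_tri h3) (kf_tri h4) h5).resolve_left hij
    · rw [← h1]; rfl
    · rw [← h2]; rfl
  · intro h
    refine ⟨_, _, ?_, ?_, kf_rowFlag G i (Sum.inl j), kf_rowFlag G j (Sum.inl i), adj_link G h⟩
    · rw [same_same_line]; rfl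
    · rw [same_same_line]; rfl

variable {G} {W : Type} {H : SimpleGraph W}

theorem exists_row (φ : GG G ≃g GG H) (i : V) :
    ∃ j, ∃ x, φ (Sum.inr (rowFlag G i (Sum.inr 0))) = Sum.inr x ∧ x.1.2.1 = Row j := by
  have h1 := kf_iso φ _ (kf_rowFlag G i (Sum.inr 0))
  obtain ⟨x, hx⟩ := tri_inr H (kf_tri h1)
  rw [hx] at h1
  obtain ⟨j, hj⟩ := kf_row H h1
  exact ⟨j, x, hx, hj⟩

theorem row_rel (φ : GG G ≃g GG H) (i : V) (j : W) :
    (∃ x, φ (Sum.inr (rowFlag G i (Sum.inr 0))) = Sum.inr x ∧ x.1.2.1 = Row j) ↔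
    Same (GG H) (φ (Sum.inr (rowFlag G i (Sum.inr 0)))) (Sum.inr (rowFlag H j (Sum.inr 0))) := by
  constructor
  · rintro ⟨x, h1, h2⟩
    rw [h1, same_same_line]
    exact Subtype.ext h2
  · intro h
    obtain ⟨k, x, h1, h2⟩ := exists_row φ i
    rw [h1, same_same_line] at h
    exact ⟨x, h1, by rw [h]; rfl⟩

theorem iso_of_GG_iso (φ : GG G ≃g GG H) : Nonempty (G ≃g H) := by
  have key : ∀ i j, (∃ x, φ (Sum.inr (rowFlag G i (Sum.inr 0))) = Sum.inr x ∧ x.1.2.1 = Row j) ↔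
      (∃ x, φ.symm (Sum.inr (rowFlag H j (Sum.inr 0))) = Sum.inr x ∧ x.1.2.1 = Row i) := by
    intro i j
    rw [row_rel, row_rel]
    constructor
    · intro h
      have h' := same_iso φ.symm _ _ h
      rw [RelIso.symm_apply_apply] at h'
      rcases h' with h' | h'
      · exact Or.inl h'.symm
      · exact Or.inr h'.symm
    · intro h
      have h' := same_iso φ _ _ h
      rw [RelIso.apply_symm_apply] at h'
      rcases h' with h' | h'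
      · exact Or.inl h'.symm
      · exact Or.inr h'.symm
  choose f hf using exists_row φ
  choose g hg using exists_row φ.symm
  have uniq : ∀ i j j', (∃ x, φ (Sum.inr (rowFlag G i (Sum.inr 0))) = Sum.inr x ∧
      x.1.2.1 = Row j) → (∃ x, φ (Sum.inr (rowFlag G i (Sum.inr 0))) = Sum.inr x ∧
      x.1.2.1 = Row j') → j = j' := by
    rintro i j j' ⟨x, h1, h2⟩ ⟨x', h3, h4⟩
    rw [h1] at h3
    rw [← Sum.inr.inj h3, h2] at h4
    exact row_ne h4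
  have uniq' : ∀ j i i', (∃ x, φ.symm (Sum.inr (rowFlag H j (Sum.inr 0))) = Sum.inr x ∧
      x.1.2.1 = Row i) → (∃ x, φ.symm (Sum.inr (rowFlag H j (Sum.inr 0))) = Sum.inr x ∧
      x.1.2.1 = Row i') → i = i' := by
    rintro i j j' ⟨x, h1, h2⟩ ⟨x', h3, h4⟩
    rw [h1] at h3
    rw [← Sum.inr.inj h3, h2] at h4
    exact row_ne h4
  have hfg : ∀ j, f (g j) = j := fun j => uniq (g j) _ _ (hf (g j)) ((key _ _).2 (hg j))
  have hgf : ∀ i, g (f i) = i := fun i => uniq' (f i) _ _ (hg (f i)) ((key _ _).1 (hf i))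
  refine ⟨⟨⟨f, g, hgf, hfg⟩, ?_⟩⟩
  intro i i'
  change H.Adj (f i) (f i') ↔ G.Adj i i'
  by_cases hii : i = i'
  · subst hii
    simp
  have hff : f i ≠ f i' := fun e => hii (by rw [← hgf i, e, hgf])
  rw [← rlink_iff G hii (Sum.inr 0) (Sum.inr 0), ← rlink_iff H hff (Sum.inr 0) (Sum.inr 0)]
  have hs : ∀ i, Same (GG H) (φ (Sum.inr (rowFlag G i (Sum.inr 0))))
      (Sum.inr (rowFlag H (f i) (Sum.inr 0))) := fun i => (row_rel φ i (f i)).1 (hf i)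
  have trans : ∀ i (z : _), Same (GG H) (φ (Sum.inr (rowFlag G i (Sum.inr 0)))) z →
      KF (GG H) z → Same (GG H) (Sum.inr (rowFlag H (f i) (Sum.inr 0))) z := by
    intro i z h1 h2
    obtain ⟨x, hx, hx'⟩ := hf i
    obtain ⟨z, rfl⟩ := tri_inr H (kf_tri h2)
    rw [hx, same_same_line] at h1
    rw [same_same_line, ← h1]
    exact Subtype.ext hx'.symm
  have trans' : ∀ i (z : _), Same (GG H) (Sum.inr (rowFlag H (f i) (Sum.inr 0))) z →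
      KF (GG H) z → Same (GG H) (φ (Sum.inr (rowFlag G i (Sum.inr 0)))) z := by
    intro i z h1 h2
    obtain ⟨x, hx, hx'⟩ := hf i
    obtain ⟨z, rfl⟩ := tri_inr H (kf_tri h2)
    rw [same_same_line] at h1
    rw [hx, same_same_line, ← h1]
    exact Subtype.ext hx'
  constructor
  · rintro ⟨x', y', h1, h2, h3, h4, h5⟩
    have : RLink (GG H) (φ (Sum.inr (rowFlag G i (Sum.inr 0))))
        (φ (Sum.inr (rowFlag G i' (Sum.inr 0)))) :=
      ⟨x', y', trans' i _ h1 h3, trans' i' _ h2 h4, h3, h4, h5⟩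
    simpa using rlink_iso φ.symm _ _ this
  · intro h
    obtain ⟨x', y', h1, h2, h3, h4, h5⟩ := rlink_iso φ _ _ h
    exact ⟨x', y', trans i _ h1 h3, trans i' _ h2 h4, h3, h4, h5⟩

end Pool.Agent.H910R3.Geo
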