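import Pool.Agent.H910R3.Geo.Iso

/-!
# The linear space of a graph

The points are the pairs `(i, j)` of vertices, four further points in every row, and three points
`∞₀, ∞₁, ∞₂`.  The lines are the rows, the sets `{∞₀, (i, j), (j, i)}` for adjacent vertices `i, j`
and all other pairs of points.
-/

set_option autoImplicit false

namespace Pool.Agent.H910R3.Geo

open SimpleGraph

/-- The points of the linear space of a graph with vertex set `V`. -/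
abbrev Pt (V : Type) : Type := (V × (V ⊕ Fin 4)) ⊕ Fin 3

variable {V : Type}

/-- A row. -/
def Row (i : V) : Set (Pt V) := {x | ∃ c, x = Sum.inl (i, c)}

/-- The line of a pair of adjacent vertices. -/
def Tl (i j : V) : Set (Pt V) :=
  {x | x = Sum.inr 0 ∨ x = Sum.inl (i, Sum.inl j) ∨ x = Sum.inl (j, Sum.inl i)}

theorem mem_Tl {i j : V} {x : Pt V} :
    x ∈ Tl i j ↔ x = Sum.inr 0 ∨ x = Sum.inl (i, Sum.inl j) ∨ x = Sum.inl (j, Sum.inl i) := Iff.rfl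

theorem mem_Row {i : V} {x : Pt V} : x ∈ Row i ↔ ∃ c, x = Sum.inl (i, c) := Iff.rfl

/-- The lines with more than two points. -/
def Big (G : SimpleGraph V) (S : Set (Pt V)) : Prop :=
  (∃ i, S = Row i) ∨ ∃ i j, G.Adj i j ∧ S = Tl i j

/-- The lines of the linear space of a graph. -/
def Ln (G : SimpleGraph V) (S : Set (Pt V)) : Prop :=
  Big G S ∨ ∃ p q, p ≠ q ∧ (∀ B, Big G B → ¬ (p ∈ B ∧ q ∈ B)) ∧ S = {x | x = p ∨ x = q}

/-- The incidence relation of the linear space of a graph. -/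
def Inc (G : SimpleGraph V) (p : Pt V) (l : {S // Ln G S}) : Prop := p ∈ l.1

theorem row_inj {i j : V} {c : V ⊕ Fin 4} (h : (Sum.inl (i, c) : Pt V) ∈ Row j) : i = j := by
  obtain ⟨d, hd⟩ := h
  simp only [Sum.inl.injEq, Prod.mk.injEq] at hd
  exact hd.1

theorem Tl_symm (i j : V) : Tl i j = Tl j i := by
  ext x
  simp only [mem_Tl]
  tauto

theorem big_eq (G : SimpleGraph V) {B B' : Set (Pt V)} (hB : Big G B) (hB' : Big G B')
    {p q : Pt V} (hpq : p ≠ q) (h1 : p ∈ B) (h2 : q ∈ B) (h3 : p ∈ B') (h4 : q ∈ B') : B = B' := by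
  rcases hB with ⟨i, rfl⟩ | ⟨i, j, hij, rfl⟩ <;> rcases hB' with ⟨k, rfl⟩ | ⟨k, l, hkl, rfl⟩
  · obtain ⟨c, rfl⟩ := h1
    rw [row_inj h3]
  · exfalso
    obtain ⟨c, rfl⟩ := h1
    obtain ⟨d, rfl⟩ := h2
    have := hkl.ne
    simp only [mem_Tl, Sum.inl.injEq, Prod.mk.injEq, reduceCtorEq, false_or] at h3 h4
    grind
  · exfalso
    obtain ⟨c, rfl⟩ := h3
    obtain ⟨d, rfl⟩ := h4
    have := hij.ne
    simp only [mem_Tl, Sum.inl.injEq, Prod.mk.injEq, reduceCtorEq, false_or] at h1 h2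
    grind
  · have e1 := hij.ne
    have e2 := hkl.ne
    have key : (i = k ∧ j = l) ∨ (i = l ∧ j = k) := by
      simp only [mem_Tl] at h1 h2 h3 h4
      rcases h1 with rfl | rfl | rfl <;> rcases h2 with rfl | rfl | rfl <;>
        simp_all <;> tauto
    rcases key with ⟨rfl, rfl⟩ | ⟨rfl, rfl⟩
    · rfl
    · exact Tl_symm _ _

theorem inc_linear (G : SimpleGraph V) : Linear (Inc G) := by
  intro p q hpq
  by_cases h : ∃ B, Big G B ∧ p ∈ B ∧ q ∈ B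
  · obtain ⟨B, hB, h1, h2⟩ := h
    refine ⟨⟨B, Or.inl hB⟩, ⟨h1, h2⟩, ?_⟩
    rintro ⟨S, hS⟩ ⟨h3, h4⟩
    apply Subtype.ext
    simp only
    rcases hS with hS | ⟨p', q', hne, hno, rfl⟩
    · exact big_eq G hS hB hpq h3 h4 h1 h2
    · exfalso
      simp only [Inc, Set.mem_ofPred_eq] at h3 h4
      apply hno B hB
      grind
  · refine ⟨⟨{x | x = p ∨ x = q}, Or.inr ⟨p, q, hpq, fun B hB h' => h ⟨B, hB, h'⟩, rfl⟩⟩,
      ⟨Or.inl rfl, Or.inr rfl⟩, ?_⟩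
    rintro ⟨S, hS⟩ ⟨h3, h4⟩
    apply Subtype.ext
    simp only
    rcases hS with hS | ⟨p', q', hne, hno, rfl⟩
    · exact absurd ⟨S, hS, h3, h4⟩ h
    · simp only [Inc, Set.mem_ofPred_eq] at h3 h4
      ext x
      simp only [Set.mem_ofPred_eq]
      grind

theorem inc_ext (G : SimpleGraph V) : LineExt (Inc G) := fun _ _ h => Subtype.ext (Set.ext h)

/-- Every point is on at most one row. -/
theorem inc_two (G : SimpleGraph V) (l : {S // Ln G S}) : ∃ p q, p ≠ q ∧ Inc G p l ∧ Inc G q l := by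
  obtain ⟨S, hS⟩ := l
  rcases hS with (⟨i, rfl⟩ | ⟨i, j, hij, rfl⟩) | ⟨p', q', hne, hno, rfl⟩
  · exact ⟨Sum.inl (i, Sum.inr 0), Sum.inl (i, Sum.inr 1), by simp, ⟨_, rfl⟩, ⟨_, rfl⟩⟩
  · exact ⟨Sum.inr 0, Sum.inl (i, Sum.inl j), by simp, Or.inl rfl, Or.inr (Or.inl rfl)⟩
  · exact ⟨p', q', hne, Or.inl rfl, Or.inr rfl⟩

theorem inc_miss (G : SimpleGraph V) (l : {S // Ln G S}) : ∃ p, ¬ Inc G p l := by
  obtain ⟨S, hS⟩ := l
  rcases hS with (⟨i, rfl⟩ | ⟨i, j, hij, rfl⟩) | ⟨p', q', hne, hno, rfl⟩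
  · exact ⟨Sum.inr 0, fun ⟨c, h⟩ => by simp at h⟩
  · exact ⟨Sum.inr 1, fun h => by simp [Inc, mem_Tl] at h⟩
  · by_contra hcon
    push Not at hcon
    simp only [Inc, Set.mem_ofPred_eq] at hcon
    have h0 := hcon (Sum.inr 0)
    have h1 := hcon (Sum.inr 1)
    have h2 := hcon (Sum.inr 2)
    have a1 : (Sum.inr 0 : Pt V) ≠ Sum.inr 1 := by simp
    have a2 : (Sum.inr 0 : Pt V) ≠ Sum.inr 2 := by simp
    have a3 : (Sum.inr 1 : Pt V) ≠ Sum.inr 2 := by simp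
    grind

/-- The geodetic graph of a graph. -/
def GG (G : SimpleGraph V) : SimpleGraph (Pt V ⊕ {x : Pt V × {S // Ln G S} // Inc G x.1 x.2}) :=
  FG (Inc G)

theorem GG_geodetic (G : SimpleGraph V) : Geodetic (GG G) ∧ ∀ u v, (GG G).dist u v ≤ 5 :=
  haveI : Nonempty (Pt V) := ⟨Sum.inr 0⟩
  FG_geodetic (inc_linear G)

theorem GG_twoConnected (G : SimpleGraph V) : TwoConnected (GG G) :=
  FG_twoConnected (inc_linear G) (inc_two G) (inc_miss G) ⟨Sum.inr 0, Sum.inr 1, by simp⟩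

/-- The bijection of the points induced by a bijection of the vertices. -/
def ptEquiv {W : Type} (σ : V ≃ W) : Pt V ≃ Pt W :=
  (σ.prodCongr (σ.sumCongr (Equiv.refl _))).sumCongr (Equiv.refl _)

theorem image_row {W : Type} (σ : V ≃ W) (i : V) (p : Pt V) :
    p ∈ Row i ↔ ptEquiv σ p ∈ Row (σ i) := by
  rcases p with ⟨j, c⟩ | k
  · simp only [mem_Row, ptEquiv]
    constructor
    · rintro ⟨d, hd⟩
      simp only [Sum.inl.injEq, Prod.mk.injEq] at hd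
      obtain ⟨rfl, rfl⟩ := hd
      exact ⟨_, rfl⟩
    · rintro ⟨d, hd⟩
      simp only [Equiv.sumCongr_apply, Sum.map_inl, Sum.inl.injEq, Equiv.prodCongr_apply,
        Prod.map_apply, Prod.mk.injEq, σ.injective.eq_iff] at hd
      exact ⟨c, by rw [hd.1]⟩
  · simp [mem_Row, ptEquiv]

theorem image_Tl {W : Type} (σ : V ≃ W) (i j : V) (p : Pt V) :
    p ∈ Tl i j ↔ ptEquiv σ p ∈ Tl (σ i) (σ j) := by
  have h0 : ptEquiv σ (Sum.inr 0) = Sum.inr 0 := rfl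
  have h1 : ptEquiv σ (Sum.inl (i, Sum.inl j)) = Sum.inl (σ i, Sum.inl (σ j)) := rfl
  have h2 : ptEquiv σ (Sum.inl (j, Sum.inl i)) = Sum.inl (σ j, Sum.inl (σ i)) := rfl
  simp only [mem_Tl]
  rw [← h0, ← h1, ← h2, (ptEquiv σ).injective.eq_iff, (ptEquiv σ).injective.eq_iff,
    (ptEquiv σ).injective.eq_iff]

theorem ln_image {W : Type} {G : SimpleGraph V} {H : SimpleGraph W} (σ : G ≃g H) {S : Set (Pt V)}
    (hS : Ln G S) : ∃ S', Ln H S' ∧ ∀ p, p ∈ S ↔ ptEquiv σ.toEquiv p ∈ S' := by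
  have hbig : ∀ S, Big G S → ∃ S', Big H S' ∧ ∀ p, p ∈ S ↔ ptEquiv σ.toEquiv p ∈ S' := by
    rintro S (⟨i, rfl⟩ | ⟨i, j, hij, rfl⟩)
    · exact ⟨_, Or.inl ⟨σ i, rfl⟩, image_row σ.toEquiv i⟩
    · exact ⟨_, Or.inr ⟨σ i, σ j, σ.map_adj_iff.2 hij, rfl⟩, image_Tl σ.toEquiv i j⟩
  have hbig' : ∀ S', Big H S' → ∃ S, Big G S ∧ ∀ p, p ∈ S ↔ ptEquiv σ.toEquiv p ∈ S' := by
    rintro S (⟨i, rfl⟩ | ⟨i, j, hij, rfl⟩)
    · obtain ⟨i, rfl⟩ := σ.surjective i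
      exact ⟨_, Or.inl ⟨i, rfl⟩, image_row σ.toEquiv i⟩
    · obtain ⟨i, rfl⟩ := σ.surjective i
      obtain ⟨j, rfl⟩ := σ.surjective j
      exact ⟨_, Or.inr ⟨i, j, σ.map_adj_iff.1 hij, rfl⟩, image_Tl σ.toEquiv i j⟩
  rcases hS with hS | ⟨p', q', hne, hno, rfl⟩
  · obtain ⟨S', h1, h2⟩ := hbig S hS
    exact ⟨S', Or.inl h1, h2⟩
  · refine ⟨_, Or.inr ⟨ptEquiv σ.toEquiv p', ptEquiv σ.toEquiv q',
      fun e => hne ((ptEquiv σ.toEquiv).injective e), ?_, rfl⟩, fun p => ?_⟩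
    · intro B hB h
      obtain ⟨S, h1, h2⟩ := hbig' B hB
      exact hno S h1 ⟨(h2 _).2 h.1, (h2 _).2 h.2⟩
    · simp only [Set.mem_ofPred_eq, (ptEquiv σ.toEquiv).injective.eq_iff]

theorem GG_iso_of_iso {W : Type} {G : SimpleGraph V} {H : SimpleGraph W} (σ : G ≃g H) :
    Nonempty (GG G ≃g GG H) := by
  refine FG_iso (inc_ext G) (inc_ext H) (ptEquiv σ.toEquiv) ?_ ?_
  · rintro ⟨S, hS⟩
    obtain ⟨S', h1, h2⟩ := ln_image σ hS
    exact ⟨⟨S', h1⟩, h2⟩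
  · rintro ⟨S', hS'⟩
    obtain ⟨S, h1, h2⟩ := ln_image σ.symm hS'
    refine ⟨⟨S, h1⟩, fun p => ?_⟩
    have h3 := h2 (ptEquiv σ.toEquiv p)
    have h4 : ptEquiv σ.symm.toEquiv (ptEquiv σ.toEquiv p) = p := by
      change (ptEquiv σ.toEquiv).symm (ptEquiv σ.toEquiv p) = p
      simp
    rw [h4] at h3
    exact h3.symm

end Pool.Agent.H910R3.Geo
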